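import Mathlib

/-!
# The sub-Gaussian tilt

A finite family of vectors `w y` in a Euclidean space carries a probability measure `ν` (an
exponential tilt of the uniform measure) with atoms at most `exp (A ‖w y‖ ^ 2) / N`, such that the
second moments of `⟪h, w y - w y'⟫` are at most `2 ‖h‖ ^ 2 / A` for all `h`.
-/

set_option autoImplicit false

open Finset Real
open scoped InnerProductSpace

namespace Pool.Agent.Lib.EndG

theorem one_add_sq_div_two_le_cosh (x : ℝ) : 1 + x ^ 2 / 2 ≤ Real.cosh x := by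
  have h1 : Real.cosh x = 1 + 2 * Real.sinh (x / 2) ^ 2 := by
    have h2 : Real.cosh (2 * (x / 2)) = Real.cosh (x / 2) ^ 2 + Real.sinh (x / 2) ^ 2 :=
      Real.cosh_two_mul (x / 2)
    have h3 : Real.cosh (x / 2) ^ 2 = Real.sinh (x / 2) ^ 2 + 1 := Real.cosh_sq (x / 2)
    rw [h3] at h2
    have h4 : 2 * (x / 2) = x := by ring
    rw [h4] at h2
    linarith
  have h5 : (x / 2) ^ 2 ≤ Real.sinh (x / 2) ^ 2 := by
    rcases le_total 0 (x / 2) with h | h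
    · exact pow_le_pow_left₀ h (Real.self_le_sinh_iff.2 h) 2
    · have h6 : 0 ≤ -(x / 2) := by linarith
      have h7 := pow_le_pow_left₀ h6 (Real.self_le_sinh_iff.2 h6) 2
      rw [Real.sinh_neg] at h7
      nlinarith
  rw [h1]
  nlinarith

section tilt

variable {Y : Type*} [Fintype Y] [Nonempty Y]
variable {E : Type*} [NormedAddCommGroup E] [InnerProductSpace ℝ E]

/-- the Laplace transform -/
noncomputable def lap (w : Y → E) (θ : E) : ℝ := ∑ y, Real.exp ⟪θ, w y⟫_ℝ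

omit [Nonempty Y] in
theorem continuous_lap (w : Y → E) : Continuous (lap w) := by
  unfold lap
  fun_prop

theorem lap_pos (w : Y → E) (θ : E) : 0 < lap w θ :=
  Finset.sum_pos (fun y _ => Real.exp_pos _) Finset.univ_nonempty

omit [Nonempty Y] in
theorem lap_zero (w : Y → E) : lap w 0 = Fintype.card Y := by
  unfold lap
  simp

omit [Nonempty Y] in
/-- product of two values of the Laplace transform as a double sum. -/
theorem lap_mul_lap (w : Y → E) (θ h : E) :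
    lap w (θ + h) * lap w (θ - h) =
      ∑ y, ∑ y', Real.exp ⟪θ, w y⟫_ℝ * Real.exp ⟪θ, w y'⟫_ℝ * Real.exp ⟪h, w y - w y'⟫_ℝ := by
  unfold lap
  rw [Finset.sum_mul_sum]
  refine Finset.sum_congr rfl (fun y _ => Finset.sum_congr rfl (fun y' _ => ?_))
  rw [← Real.exp_add, ← Real.exp_add, ← Real.exp_add, inner_add_left, inner_sub_left,
    inner_sub_right]
  congr 1
  ring

omit [Nonempty Y] in
/-- symmetrised form -/
theorem lap_mul_lap' (w : Y → E) (θ h : E) :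
    lap w (θ + h) * lap w (θ - h) =
      ∑ y, ∑ y', Real.exp ⟪θ, w y⟫_ℝ * Real.exp ⟪θ, w y'⟫_ℝ * Real.cosh ⟪h, w y - w y'⟫_ℝ := by
  have h1 := lap_mul_lap w θ h
  have h2 : lap w (θ + h) * lap w (θ - h) =
      ∑ y, ∑ y', Real.exp ⟪θ, w y⟫_ℝ * Real.exp ⟪θ, w y'⟫_ℝ
        * Real.exp (-⟪h, w y - w y'⟫_ℝ) := by
    rw [h1, Finset.sum_comm]
    refine Finset.sum_congr rfl (fun y _ => Finset.sum_congr rfl (fun y' _ => ?_))
    rw [← inner_neg_right, neg_sub]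
    ring
  have h3 : lap w (θ + h) * lap w (θ - h)
      = (lap w (θ + h) * lap w (θ - h) + lap w (θ + h) * lap w (θ - h)) / 2 := by ring
  rw [h3]
  nth_rewrite 1 [h1]
  nth_rewrite 1 [h2]
  rw [← Finset.sum_add_distrib, Finset.sum_div]
  refine Finset.sum_congr rfl (fun y _ => ?_)
  rw [← Finset.sum_add_distrib, Finset.sum_div]
  refine Finset.sum_congr rfl (fun y' _ => ?_)
  rw [Real.cosh_eq]
  ring

/-- existence of the maximiser of `log lap - ‖θ‖ ^ 2 / (4 A)`, in multiplicative form -/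
theorem exists_max [FiniteDimensional ℝ E] (w : Y → E) {A : ℝ} (hA : 0 < A) :
    ∃ θ : E, ∀ θ' : E, lap w θ' * Real.exp (-(‖θ'‖ ^ 2 / (4 * A)))
      ≤ lap w θ * Real.exp (-(‖θ‖ ^ 2 / (4 * A))) := by
  classical
  have : ProperSpace E := FiniteDimensional.proper ℝ E
  set F : E → ℝ := fun θ => lap w θ * Real.exp (-(‖θ‖ ^ 2 / (4 * A))) with hF
  have hFc : Continuous F := by
    rw [hF]
    have := continuous_lap w
    fun_prop
  obtain ⟨y0, hy0⟩ := Finite.exists_max (fun y => ‖w y‖)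
  set W : ℝ := ‖w y0‖ with hW
  set R : ℝ := 4 * A * W with hR
  have hR0 : 0 ≤ R := by positivity
  have hcomp : IsCompact (Metric.closedBall (0 : E) R) := isCompact_closedBall 0 R
  obtain ⟨θ, hθ, hmax⟩ := hcomp.exists_isMaxOn ⟨0, by simp [hR0]⟩ hFc.continuousOn
  refine ⟨θ, fun θ' => ?_⟩
  by_cases h : θ' ∈ Metric.closedBall (0 : E) R
  · exact hmax h
  · have h1 : R < ‖θ'‖ := by
      rw [Metric.mem_closedBall, dist_zero_right, not_le] at h
      exact h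
    have h0 : F 0 ≤ F θ := hmax (by simp [hR0])
    refine le_trans ?_ h0
    have h2 : F 0 = Fintype.card Y := by
      simp only [hF, lap_zero, norm_zero]
      simp
    rw [h2]
    have h3 : ∀ y, Real.exp ⟪θ', w y⟫_ℝ * Real.exp (-(‖θ'‖ ^ 2 / (4 * A))) ≤ 1 := by
      intro y
      rw [← Real.exp_add, Real.exp_le_one_iff]
      have h4 : ⟪θ', w y⟫_ℝ ≤ ‖θ'‖ * W :=
        (real_inner_le_norm _ _).trans (mul_le_mul_of_nonneg_left (hy0 y) (norm_nonneg _))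
      have h5 : ‖θ'‖ * W ≤ ‖θ'‖ ^ 2 / (4 * A) := by
        rw [le_div_iff₀ (by positivity)]
        have h6 : ‖θ'‖ * (4 * A * W) ≤ ‖θ'‖ * ‖θ'‖ :=
          mul_le_mul_of_nonneg_left h1.le (norm_nonneg _)
        nlinarith
      linarith
    unfold lap
    rw [Finset.sum_mul]
    refine (Finset.sum_le_sum (fun y _ => h3 y)).trans ?_
    simp

/-- **The sub-Gaussian tilt.** -/
theorem exists_tilt [FiniteDimensional ℝ E] (w : Y → E) {A : ℝ} (hA : 0 < A) :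
    ∃ ν : Y → ℝ, (∀ y, 0 ≤ ν y) ∧ ∑ y, ν y = 1 ∧
      (∀ y, ν y ≤ Real.exp (A * ‖w y‖ ^ 2) / Fintype.card Y) ∧
      (∀ h : E, ∑ y, ∑ y', ν y * ν y' * ⟪h, w y - w y'⟫_ℝ ^ 2 ≤ 2 * ‖h‖ ^ 2 / A) := by
  classical
  obtain ⟨θ, hθ⟩ := exists_max w hA
  have hSpos := lap_pos w θ
  have hcard : (0 : ℝ) < Fintype.card Y := by exact_mod_cast Fintype.card_pos
  set S := lap w θ with hS
  refine ⟨fun y => Real.exp ⟪θ, w y⟫_ℝ / S, fun y => by positivity, ?_, ?_, ?_⟩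
  · rw [← Finset.sum_div]
    exact div_self hSpos.ne'
  · intro y
    have h0 := hθ 0
    rw [lap_zero, norm_zero] at h0
    have h1 : (Fintype.card Y : ℝ) * Real.exp (‖θ‖ ^ 2 / (4 * A)) ≤ S := by
      have h2 : (Fintype.card Y : ℝ) ≤ S * Real.exp (-(‖θ‖ ^ 2 / (4 * A))) := by
        simpa using h0
      have h3 := mul_le_mul_of_nonneg_right h2 (Real.exp_pos (‖θ‖ ^ 2 / (4 * A))).le
      rwa [mul_assoc, ← Real.exp_add, neg_add_cancel, Real.exp_zero, mul_one] at h3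
    have h4 : ⟪θ, w y⟫_ℝ ≤ ‖θ‖ ^ 2 / (4 * A) + A * ‖w y‖ ^ 2 := by
      refine (real_inner_le_norm _ _).trans ?_
      have h5 : ‖θ‖ ^ 2 / (4 * A) + A * ‖w y‖ ^ 2 - ‖θ‖ * ‖w y‖
          = (‖θ‖ - 2 * A * ‖w y‖) ^ 2 / (4 * A) := by
        field_simp
        ring
      have h6 : 0 ≤ (‖θ‖ - 2 * A * ‖w y‖) ^ 2 / (4 * A) := by positivity
      linarith
    rw [div_le_div_iff₀ hSpos hcard]
    calc Real.exp ⟪θ, w y⟫_ℝ * (Fintype.card Y : ℝ)
        ≤ Real.exp (‖θ‖ ^ 2 / (4 * A) + A * ‖w y‖ ^ 2) * (Fintype.card Y : ℝ) :=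
          mul_le_mul_of_nonneg_right (Real.exp_le_exp.2 h4) hcard.le
      _ = Real.exp (A * ‖w y‖ ^ 2)
          * ((Fintype.card Y : ℝ) * Real.exp (‖θ‖ ^ 2 / (4 * A))) := by
          rw [Real.exp_add]; ring
      _ ≤ Real.exp (A * ‖w y‖ ^ 2) * S :=
          mul_le_mul_of_nonneg_left h1 (Real.exp_pos _).le
  · -- second moments
    have key : ∀ h : E, 1 + (∑ y, ∑ y', Real.exp ⟪θ, w y⟫_ℝ / S * (Real.exp ⟪θ, w y'⟫_ℝ / S)
        * ⟪h, w y - w y'⟫_ℝ ^ 2) / 2 ≤ Real.exp (‖h‖ ^ 2 / (2 * A)) := by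
      intro h
      have h1 := hθ (θ + h)
      have h2 := hθ (θ - h)
      have h3 : lap w (θ + h) * lap w (θ - h) ≤ S ^ 2 * Real.exp (‖h‖ ^ 2 / (2 * A)) := by
        have h4 := mul_le_mul h1 h2 (mul_nonneg (lap_pos w _).le (Real.exp_pos _).le)
          (mul_nonneg hSpos.le (Real.exp_pos _).le)
        have h5 : ‖θ + h‖ ^ 2 + ‖θ - h‖ ^ 2 = 2 * (‖θ‖ ^ 2 + ‖h‖ ^ 2) := by
          have := parallelogram_law_with_norm ℝ θ h
          nlinarith
        have h6 : lap w (θ + h) * Real.exp (-(‖θ + h‖ ^ 2 / (4 * A)))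
            * (lap w (θ - h) * Real.exp (-(‖θ - h‖ ^ 2 / (4 * A))))
            = lap w (θ + h) * lap w (θ - h)
              * Real.exp (-((2 * (‖θ‖ ^ 2 + ‖h‖ ^ 2)) / (4 * A))) := by
          rw [← h5]
          have : -((‖θ + h‖ ^ 2 + ‖θ - h‖ ^ 2) / (4 * A))
              = -(‖θ + h‖ ^ 2 / (4 * A)) + -(‖θ - h‖ ^ 2 / (4 * A)) := by ring
          rw [this, Real.exp_add]
          ring
        rw [h6] at h4
        have h7 : S * Real.exp (-(‖θ‖ ^ 2 / (4 * A))) * (S * Real.exp (-(‖θ‖ ^ 2 / (4 * A))))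
            = S ^ 2 * Real.exp (‖h‖ ^ 2 / (2 * A))
              * Real.exp (-((2 * (‖θ‖ ^ 2 + ‖h‖ ^ 2)) / (4 * A))) := by
          have : -(‖θ‖ ^ 2 / (4 * A)) + -(‖θ‖ ^ 2 / (4 * A))
              = ‖h‖ ^ 2 / (2 * A) + -((2 * (‖θ‖ ^ 2 + ‖h‖ ^ 2)) / (4 * A)) := by
            field_simp
            ring
          calc S * Real.exp (-(‖θ‖ ^ 2 / (4 * A))) * (S * Real.exp (-(‖θ‖ ^ 2 / (4 * A))))
              = S ^ 2 * (Real.exp (-(‖θ‖ ^ 2 / (4 * A)))
                * Real.exp (-(‖θ‖ ^ 2 / (4 * A)))) := by ring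
            _ = _ := by rw [← Real.exp_add, this, Real.exp_add]; ring
        rw [h7] at h4
        exact le_of_mul_le_mul_right h4 (Real.exp_pos _)
      rw [lap_mul_lap'] at h3
      have h8 : ∑ y, ∑ y', Real.exp ⟪θ, w y⟫_ℝ * Real.exp ⟪θ, w y'⟫_ℝ
            * (1 + ⟪h, w y - w y'⟫_ℝ ^ 2 / 2) ≤
          ∑ y, ∑ y', Real.exp ⟪θ, w y⟫_ℝ * Real.exp ⟪θ, w y'⟫_ℝ
            * Real.cosh ⟪h, w y - w y'⟫_ℝ := by
        refine Finset.sum_le_sum (fun y _ => Finset.sum_le_sum (fun y' _ => ?_))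
        exact mul_le_mul_of_nonneg_left (one_add_sq_div_two_le_cosh _) (by positivity)
      have h9 : ∑ y, ∑ y', Real.exp ⟪θ, w y⟫_ℝ * Real.exp ⟪θ, w y'⟫_ℝ
            * (1 + ⟪h, w y - w y'⟫_ℝ ^ 2 / 2) = S ^ 2 * (1 +
          (∑ y, ∑ y', Real.exp ⟪θ, w y⟫_ℝ / S * (Real.exp ⟪θ, w y'⟫_ℝ / S)
        * ⟪h, w y - w y'⟫_ℝ ^ 2) / 2) := by
        have h10 : ∑ y, ∑ y', Real.exp ⟪θ, w y⟫_ℝ * Real.exp ⟪θ, w y'⟫_ℝ = S ^ 2 := by
          rw [sq, hS, lap, Finset.sum_mul_sum]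
        have h11 : S ^ 2 * (∑ y, ∑ y', Real.exp ⟪θ, w y⟫_ℝ / S * (Real.exp ⟪θ, w y'⟫_ℝ / S)
            * ⟪h, w y - w y'⟫_ℝ ^ 2) = ∑ y, ∑ y', Real.exp ⟪θ, w y⟫_ℝ * Real.exp ⟪θ, w y'⟫_ℝ
            * ⟪h, w y - w y'⟫_ℝ ^ 2 := by
          rw [Finset.mul_sum]
          refine Finset.sum_congr rfl (fun y _ => ?_)
          rw [Finset.mul_sum]
          refine Finset.sum_congr rfl (fun y' _ => ?_)
          field_simp
        rw [mul_add, mul_one, ← mul_div_assoc, h11, ← h10, Finset.sum_div,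
          ← Finset.sum_add_distrib]
        refine Finset.sum_congr rfl (fun y _ => ?_)
        rw [Finset.sum_div, ← Finset.sum_add_distrib]
        refine Finset.sum_congr rfl (fun y' _ => ?_)
        ring
      rw [h9] at h8
      have h12 := h8.trans h3
      exact le_of_mul_le_mul_left h12 (by positivity)
    intro h
    by_cases hh : h = 0
    · subst hh
      simp
    have hn : 0 < ‖h‖ := norm_pos_iff.2 hh
    set V := ∑ y, ∑ y', Real.exp ⟪θ, w y⟫_ℝ / S * (Real.exp ⟪θ, w y'⟫_ℝ / S)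
        * ⟪h, w y - w y'⟫_ℝ ^ 2 with hV
    have h1 := key ((Real.sqrt (2 * A) / ‖h‖) • h)
    have h2 : ∑ y, ∑ y', Real.exp ⟪θ, w y⟫_ℝ / S * (Real.exp ⟪θ, w y'⟫_ℝ / S)
        * ⟪(Real.sqrt (2 * A) / ‖h‖) • h, w y - w y'⟫_ℝ ^ 2 = (2 * A / ‖h‖ ^ 2) * V := by
      rw [hV, Finset.mul_sum]
      refine Finset.sum_congr rfl (fun y _ => ?_)
      rw [Finset.mul_sum]
      refine Finset.sum_congr rfl (fun y' _ => ?_)
      rw [inner_smul_left, mul_pow]
      have : (starRingEnd ℝ) (Real.sqrt (2 * A) / ‖h‖) ^ 2 = 2 * A / ‖h‖ ^ 2 := by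
        rw [conj_trivial, div_pow, Real.sq_sqrt (by positivity)]
      rw [this]
      ring
    rw [h2] at h1
    have h3 : ‖(Real.sqrt (2 * A) / ‖h‖) • h‖ ^ 2 / (2 * A) = 1 := by
      rw [norm_smul, norm_div, norm_norm, Real.norm_of_nonneg (Real.sqrt_nonneg _), div_mul_cancel₀ _ hn.ne',
        Real.sq_sqrt (by positivity)]
      field_simp
    rw [h3] at h1
    have h4 : Real.exp 1 < 3 := by
      have := Real.exp_one_lt_d9
      linarith
    have h5 : (2 * A / ‖h‖ ^ 2) * V ≤ 4 := by linarith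
    rw [div_mul_eq_mul_div, div_le_iff₀ (by positivity)] at h5
    rw [le_div_iff₀ hA]
    nlinarith

end tilt

end Pool.Agent.Lib.EndG
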