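import Mathlib
import Pool.Agent.Lib.EndG.Tilt
import Pool.Agent.Lib.BSG.ADKU

/-!
# From bounded Euclidean data to a biased character, and to two orthogonal pieces
-/

set_option autoImplicit false

open Finset Real
open scoped InnerProductSpace

namespace Pool.Agent.Lib.EndG

section bias

variable {Y : Type*} [Fintype Y] [Nonempty Y]
variable {E : Type*} [NormedAddCommGroup E] [InnerProductSpace ℝ E]

/-- The biased character. -/
theorem bias [FiniteDimensional ℝ E] (w : Y → E) (J : E → E) (hJ : ∀ x, ‖J x‖ ≤ ‖x‖) {M A : ℝ}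
    (hA : 0 < A) (hw : ∀ y, ‖w y‖ ^ 2 ≤ M) (β : Y → Y → Y → Y → ℤ)
    (hβ : ∀ a b c d, (β a b c d : ℝ) = ⟪w a - w b, J (w c - w d)⟫_ℝ) (K : ℕ)
    (hK : 32 * π ^ 2 * M / A ≤ 4 ^ K) :
    ∃ ν : Y → ℝ, (∀ y, 0 ≤ ν y) ∧ ∑ y, ν y = 1 ∧
      (∀ y, ν y ≤ Real.exp (A * M) / Fintype.card Y) ∧
      1 / 2 ≤ ∑ a, ∑ b, ∑ c, ∑ d, ν a * ν b * ν c * ν d
        * Real.cos (2 * π * (β a b c d : ℝ) / 2 ^ K) := by
  classical
  obtain ⟨ν, h0, h1, h2, h3⟩ := exists_tilt w hA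
  have hM : 0 ≤ M := by
    obtain ⟨y⟩ := ‹Nonempty Y›
    exact (sq_nonneg _).trans (hw y)
  refine ⟨ν, h0, h1, fun y => (h2 y).trans ?_, ?_⟩
  · have h4 : A * ‖w y‖ ^ 2 ≤ A * M := mul_le_mul_of_nonneg_left (hw y) hA.le
    exact div_le_div_of_nonneg_right (Real.exp_le_exp.2 h4) (Nat.cast_nonneg _)
  -- second moment
  have hsec : ∑ c, ∑ d, ∑ a, ∑ b, ν c * ν d * (ν a * ν b * (β a b c d : ℝ) ^ 2) ≤ 8 * M / A := by
    have h5 : ∀ c d, ∑ a, ∑ b, ν c * ν d * (ν a * ν b * (β a b c d : ℝ) ^ 2)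
        ≤ ν c * ν d * (8 * M / A) := by
      intro c d
      have h6 := h3 (J (w c - w d))
      have h7 : ∑ a, ∑ b, ν a * ν b * ⟪J (w c - w d), w a - w b⟫_ℝ ^ 2
          = ∑ a, ∑ b, ν a * ν b * (β a b c d : ℝ) ^ 2 := by
        refine Finset.sum_congr rfl (fun a _ => Finset.sum_congr rfl (fun b _ => ?_))
        rw [hβ, real_inner_comm]
      rw [h7] at h6
      have h8 : ‖J (w c - w d)‖ ^ 2 ≤ 4 * M := by
        have h9 : ‖J (w c - w d)‖ ≤ ‖w c‖ + ‖w d‖ := (hJ _).trans (norm_sub_le _ _)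
        have h10 := hw c
        have h11 := hw d
        have h12 : ‖J (w c - w d)‖ ^ 2 ≤ (‖w c‖ + ‖w d‖) ^ 2 :=
          pow_le_pow_left₀ (norm_nonneg _) h9 2
        nlinarith [sq_nonneg (‖w c‖ - ‖w d‖)]
      have h13 : 2 * ‖J (w c - w d)‖ ^ 2 / A ≤ 8 * M / A :=
        div_le_div_of_nonneg_right (by linarith) hA.le
      calc ∑ a, ∑ b, ν c * ν d * (ν a * ν b * (β a b c d : ℝ) ^ 2)
          = ν c * ν d * ∑ a, ∑ b, ν a * ν b * (β a b c d : ℝ) ^ 2 := by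
            rw [Finset.mul_sum]
            refine Finset.sum_congr rfl (fun a _ => ?_)
            rw [Finset.mul_sum]
        _ ≤ _ := mul_le_mul_of_nonneg_left (h6.trans h13) (mul_nonneg (h0 c) (h0 d))
    calc ∑ c, ∑ d, ∑ a, ∑ b, ν c * ν d * (ν a * ν b * (β a b c d : ℝ) ^ 2)
        ≤ ∑ c, ∑ d, ν c * ν d * (8 * M / A) :=
          Finset.sum_le_sum (fun c _ => Finset.sum_le_sum (fun d _ => h5 c d))
      _ = 8 * M / A := by
          simp_rw [← Finset.sum_mul, ← Finset.mul_sum, h1, mul_one]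
          rw [h1, one_mul]
  have hcos : ∀ a b c d, ν a * ν b * ν c * ν d
        * (1 - 2 * π ^ 2 / 4 ^ K * (β a b c d : ℝ) ^ 2) ≤ ν a * ν b * ν c * ν d
        * Real.cos (2 * π * (β a b c d : ℝ) / 2 ^ K) := by
    intro a b c d
    refine mul_le_mul_of_nonneg_left ?_
      (mul_nonneg (mul_nonneg (mul_nonneg (h0 a) (h0 b)) (h0 c)) (h0 d))
    have h4 := Real.one_sub_sq_div_two_le_cos (x := 2 * π * (β a b c d : ℝ) / 2 ^ K)
    refine le_trans (le_of_eq ?_) h4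
    have h5 : (4 : ℝ) ^ K = (2 ^ K) ^ 2 := by
      rw [← pow_mul, mul_comm, pow_mul]
      norm_num
    rw [h5]
    field_simp
  have h14 : ∑ a, ∑ b, ∑ c, ∑ d, ν a * ν b * ν c * ν d
        * (1 - 2 * π ^ 2 / 4 ^ K * (β a b c d : ℝ) ^ 2)
      = 1 - 2 * π ^ 2 / 4 ^ K
        * ∑ c, ∑ d, ∑ a, ∑ b, ν c * ν d * (ν a * ν b * (β a b c d : ℝ) ^ 2) := by
    have h15 : ∑ a, ∑ b, ∑ c, ∑ d, ν a * ν b * ν c * ν d = 1 := by
      simp_rw [← Finset.mul_sum, h1, mul_one, ← Finset.mul_sum, h1, mul_one,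
        ← Finset.mul_sum, h1, mul_one]
      exact h1
    have h16 : ∑ c, ∑ d, ∑ a, ∑ b, ν c * ν d * (ν a * ν b * (β a b c d : ℝ) ^ 2)
        = ∑ a, ∑ b, ∑ c, ∑ d, ν a * ν b * ν c * ν d * (β a b c d : ℝ) ^ 2 := by
      calc ∑ c, ∑ d, ∑ a, ∑ b, ν c * ν d * (ν a * ν b * (β a b c d : ℝ) ^ 2)
          = ∑ c, ∑ a, ∑ d, ∑ b, ν c * ν d * (ν a * ν b * (β a b c d : ℝ) ^ 2) :=
            Finset.sum_congr rfl (fun c _ => Finset.sum_comm)
        _ = ∑ a, ∑ c, ∑ d, ∑ b, ν c * ν d * (ν a * ν b * (β a b c d : ℝ) ^ 2) :=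
            Finset.sum_comm
        _ = ∑ a, ∑ c, ∑ b, ∑ d, ν c * ν d * (ν a * ν b * (β a b c d : ℝ) ^ 2) :=
            Finset.sum_congr rfl (fun a _ => Finset.sum_congr rfl (fun c _ => Finset.sum_comm))
        _ = ∑ a, ∑ b, ∑ c, ∑ d, ν c * ν d * (ν a * ν b * (β a b c d : ℝ) ^ 2) :=
            Finset.sum_congr rfl (fun a _ => Finset.sum_comm)
        _ = _ := by
            refine Finset.sum_congr rfl (fun a _ => Finset.sum_congr rfl (fun b _ =>
              Finset.sum_congr rfl (fun c _ => Finset.sum_congr rfl (fun d _ => ?_))))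
            ring
    rw [h16]
    have h17 : ∑ a, ∑ b, ∑ c, ∑ d, ν a * ν b * ν c * ν d
        * (1 - 2 * π ^ 2 / 4 ^ K * (β a b c d : ℝ) ^ 2)
        = ∑ a, ∑ b, ∑ c, ∑ d, ν a * ν b * ν c * ν d
        - ∑ a, ∑ b, ∑ c, ∑ d, 2 * π ^ 2 / 4 ^ K
          * (ν a * ν b * ν c * ν d * (β a b c d : ℝ) ^ 2) := by
      simp_rw [← Finset.sum_sub_distrib]
      refine Finset.sum_congr rfl (fun a _ => Finset.sum_congr rfl (fun b _ =>
        Finset.sum_congr rfl (fun c _ => Finset.sum_congr rfl (fun d _ => ?_))))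
      ring
    rw [h17, h15]
    simp_rw [← Finset.mul_sum]
  have h17 : ∑ a, ∑ b, ∑ c, ∑ d, ν a * ν b * ν c * ν d
        * (1 - 2 * π ^ 2 / 4 ^ K * (β a b c d : ℝ) ^ 2)
      ≤ ∑ a, ∑ b, ∑ c, ∑ d, ν a * ν b * ν c * ν d
        * Real.cos (2 * π * (β a b c d : ℝ) / 2 ^ K) :=
    Finset.sum_le_sum (fun a _ => Finset.sum_le_sum (fun b _ =>
      Finset.sum_le_sum (fun c _ => Finset.sum_le_sum (fun d _ => hcos a b c d))))
  rw [h14] at h17
  refine le_trans ?_ h17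
  have h18 : 2 * π ^ 2 / 4 ^ K
      * ∑ c, ∑ d, ∑ a, ∑ b, ν c * ν d * (ν a * ν b * (β a b c d : ℝ) ^ 2)
      ≤ 2 * π ^ 2 / 4 ^ K * (8 * M / A) :=
    mul_le_mul_of_nonneg_left hsec (by positivity)
  have h19 : 2 * π ^ 2 / 4 ^ K * (8 * M / A) ≤ 1 / 2 := by
    have h20 : 2 * π ^ 2 / 4 ^ K * (8 * M / A) = (32 * π ^ 2 * M / A) / 4 ^ K / 2 := by
      field_simp
      ring
    rw [h20]
    have h21 : (32 * π ^ 2 * M / A) / 4 ^ K ≤ 1 := by
      rw [div_le_one (by positivity)]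
      exact hK
    linarith
  linarith

end bias

/-! ### Two orthogonal pieces -/

/-- the group `(ℤ/2^K)^r` -/
abbrev Gp (K r : ℕ) : Type := Fin r → ZMod (2 ^ K)

/-- reduction of an integer vector. -/
def red (K r : ℕ) (v : Fin r → ℤ) : Gp K r := fun i => (v i : ZMod (2 ^ K))

/-- the bicharacter of an integral matrix -/
noncomputable def chi (K r : ℕ) [NeZero (2 ^ K)] (B : Matrix (Fin r) (Fin r) ℤ) (x y : Gp K r) : ℂ :=
  ZMod.stdAddChar (x ⬝ᵥ (B.map (Int.cast : ℤ → ZMod (2 ^ K))).mulVec y)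

theorem red_sub {K r : ℕ} (u v : Fin r → ℤ) : red K r (u - v) = red K r u - red K r v := by
  funext i
  simp [red]

theorem red_dot {K r : ℕ} (B : Matrix (Fin r) (Fin r) ℤ) (u v : Fin r → ℤ) :
    red K r u ⬝ᵥ (B.map (Int.cast : ℤ → ZMod (2 ^ K))).mulVec (red K r v)
      = ((u ⬝ᵥ B.mulVec v : ℤ) : ZMod (2 ^ K)) := by
  simp [red, dotProduct, Matrix.mulVec, Matrix.map_apply]

theorem chi_add_left {K r : ℕ} [NeZero (2 ^ K)] (B : Matrix (Fin r) (Fin r) ℤ)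
    (x x' y : Gp K r) : chi K r B (x + x') y = chi K r B x y * chi K r B x' y := by
  unfold chi
  rw [add_dotProduct, AddChar.map_add_eq_mul]

theorem chi_add_right {K r : ℕ} [NeZero (2 ^ K)] (B : Matrix (Fin r) (Fin r) ℤ)
    (x y y' : Gp K r) : chi K r B x (y + y') = chi K r B x y * chi K r B x y' := by
  unfold chi
  rw [Matrix.mulVec_add, dotProduct_add, AddChar.map_add_eq_mul]

theorem norm_chi {K r : ℕ} [NeZero (2 ^ K)] (B : Matrix (Fin r) (Fin r) ℤ)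
    (x y : Gp K r) : ‖chi K r B x y‖ = 1 := by
  unfold chi
  rw [ZMod.stdAddChar_apply, Circle.norm_coe]

theorem chi_red {K r : ℕ} [NeZero (2 ^ K)] (B : Matrix (Fin r) (Fin r) ℤ)
    (u v : Fin r → ℤ) : chi K r B (red K r u) (red K r v)
      = Complex.exp (2 * π * Complex.I * ((u ⬝ᵥ B.mulVec v : ℤ) : ℂ) / ((2 ^ K : ℕ) : ℂ)) := by
  unfold chi
  rw [red_dot, ZMod.stdAddChar_coe]

theorem dvd_of_chi_red_eq_one {K r : ℕ} [NeZero (2 ^ K)] (B : Matrix (Fin r) (Fin r) ℤ)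
    (u v : Fin r → ℤ) (h : chi K r B (red K r u) (red K r v) = 1) :
    ((2 : ℤ) ^ K) ∣ u ⬝ᵥ B.mulVec v := by
  unfold chi at h
  rw [red_dot] at h
  have h10 : ((u ⬝ᵥ B.mulVec v : ℤ) : ZMod (2 ^ K)) = 0 := by
    refine ZMod.injective_stdAddChar ?_
    rw [h, AddChar.map_zero_eq_one]
  rw [ZMod.intCast_zmod_eq_zero_iff_dvd] at h10
  exact_mod_cast h10

theorem exists_of_avg {Y : Type*} [Fintype Y] (ν : Y → ℝ) (h0 : ∀ y, 0 ≤ ν y)
    (h1 : ∑ y, ν y = 1) (f : Y → ℝ) (t : ℝ) (h : t ≤ ∑ y, ν y * f y) : ∃ y, t ≤ f y := by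
  by_contra hcon
  push Not at hcon
  have h2 : ∃ y, 0 < ν y := by
    by_contra h3
    push Not at h3
    have h4 : ∑ y, ν y ≤ 0 := Finset.sum_nonpos (fun y _ => h3 y)
    linarith
  obtain ⟨y0, hy0⟩ := h2
  have h5 : ∑ y, ν y * f y < ∑ y, ν y * t := by
    refine Finset.sum_lt_sum (fun y _ => mul_le_mul_of_nonneg_left (hcon y).le (h0 y)) ⟨y0, Finset.mem_univ _, ?_⟩
    exact mul_lt_mul_of_pos_left (hcon y0) hy0
  rw [← Finset.sum_mul, h1, one_mul] at h5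
  linarith

/-- **Two orthogonal pieces.** -/
theorem two_sets (K : ℕ) {δ : ℝ} (hδ : 0 < δ) : ∃ m0 : ℕ, ∀ m : ℕ, m0 ≤ m →
    ∀ r : ℕ, r ≤ m → ∀ (Y : Type) [Fintype Y] [Nonempty Y] (c : Y → Fin r → ℤ)
      (B : Matrix (Fin r) (Fin r) ℤ) (E : Type) [NormedAddCommGroup E] [InnerProductSpace ℝ E]
      [FiniteDimensional ℝ E] (w : Y → E) (J : E → E), (∀ x, ‖J x‖ ≤ ‖x‖) →
      ∀ M A : ℝ, 0 < A → (∀ y, ‖w y‖ ^ 2 ≤ M) →
      (∀ a b c' d, (((c a - c b) ⬝ᵥ B.mulVec (c c' - c d) : ℤ) : ℝ)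
        = ⟪w a - w b, J (w c' - w d)⟫_ℝ) →
      32 * π ^ 2 * M / A ≤ 4 ^ K →
      ∃ Z' Z'' : Finset Y,
        (2 : ℝ) ^ (-(δ * m)) * Real.exp (-(A * M)) * Fintype.card Y ≤ Z'.card ∧
        (2 : ℝ) ^ (-(δ * m)) * Real.exp (-(A * M)) * Fintype.card Y ≤ Z''.card ∧
        ∀ u ∈ Z', ∀ u' ∈ Z', ∀ v ∈ Z'', ∀ v' ∈ Z'',
          ((2 : ℤ) ^ K) ∣ (c u - c u') ⬝ᵥ B.mulVec (c v - c v') := by
  classical
  obtain ⟨τ, hτ, m1, hm1⟩ := BSG.ad_K K δ hδ
  obtain ⟨m2, hm2⟩ := exists_nat_ge (1 / τ)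
  refine ⟨max m1 m2, fun m hm r hr Y _ _ c B E _ _ _ w J hJ M A hA hw hβ hK => ?_⟩
  have hm1' : m1 ≤ m := (le_max_left _ _).trans hm
  have hm2' : (1 : ℝ) ≤ τ * m := by
    have h1 : (m2 : ℝ) ≤ m := by exact_mod_cast (le_max_right _ _).trans hm
    have h2 : 1 / τ ≤ m := hm2.trans h1
    rw [div_le_iff₀ hτ] at h2
    linarith
  have : NeZero (2 ^ K) := ⟨by positivity⟩
  obtain ⟨ν, h0, h1, h2, h3⟩ := bias w J hJ hA hw
    (fun a b c' d => (c a - c b) ⬝ᵥ B.mulVec (c c' - c d)) hβ K hK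
  set rd : Y → Gp K r := fun y => red K r (c y) with hrd
  set χ : Gp K r → Gp K r → ℂ := chi K r B with hχ
  set g : Y × Y → ℝ := fun p => ν p.1 * ν p.2 with hg
  set f : Y × Y → Gp K r := fun p => rd p.1 - rd p.2 with hf
  set μ : Gp K r → ℝ := fun x => ∑ p, if f p = x then g p else 0 with hμ
  have hg0 : ∀ p, 0 ≤ g p := fun p => mul_nonneg (h0 _) (h0 _)
  have hsumg : ∑ p, g p = 1 := by
    rw [Fintype.sum_prod_type]
    simp only [hg]
    rw [← Finset.sum_mul_sum, h1, one_mul]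
  -- change of variables
  have hchange : ∀ F : Gp K r → ℝ, ∑ x, μ x * F x = ∑ p, g p * F (f p) := by
    intro F
    simp only [hμ, Finset.sum_mul]
    rw [Finset.sum_comm]
    refine Finset.sum_congr rfl (fun p _ => ?_)
    simp only [ite_mul, zero_mul]
    rw [Finset.sum_ite_eq]
    simp
  have hchangeC : ∀ F : Gp K r → ℂ, ∑ x, (μ x : ℂ) * F x = ∑ p, (g p : ℂ) * F (f p) := by
    intro F
    have h4 : ∀ x, (μ x : ℂ) = ∑ p, if f p = x then (g p : ℂ) else 0 := by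
      intro x
      simp only [hμ]
      rw [Complex.ofReal_sum]
      refine Finset.sum_congr rfl (fun p _ => ?_)
      split_ifs <;> simp
    simp only [h4, Finset.sum_mul]
    rw [Finset.sum_comm]
    refine Finset.sum_congr rfl (fun p _ => ?_)
    simp only [ite_mul, zero_mul]
    rw [Finset.sum_ite_eq]
    simp
  have hμ0 : ∀ x, 0 ≤ μ x := fun x => Finset.sum_nonneg (fun p _ => by
    split_ifs
    · exact hg0 p
    · exact le_rfl)
  have hμ1 : ∑ x, μ x = 1 := by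
    have := hchange (fun _ => 1)
    simp only [mul_one] at this
    rw [this, hsumg]
  have hχint : ∀ a b c' d : Y, χ (rd a - rd b) (rd c' - rd d)
      = Complex.exp (2 * π * Complex.I
        * (((c a - c b) ⬝ᵥ B.mulVec (c c' - c d) : ℤ) : ℂ) / ((2 ^ K : ℕ) : ℂ)) := by
    intro a b c' d
    simp only [hχ, hrd]
    rw [← red_sub, ← red_sub, chi_red]
  have hχadd1 : ∀ x x' y, χ (x + x') y = χ x y * χ x' y := chi_add_left B
  have hχadd2 : ∀ x y y', χ x (y + y') = χ x y * χ x y' := chi_add_right B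
  have hχnorm : ∀ x y, ‖χ x y‖ = 1 := norm_chi B
  -- the big sum
  have hbig : (1 : ℝ) / 2 ≤ ‖∑ x, ∑ y, (μ x : ℂ) * (μ y : ℂ) * χ x y‖ := by
    have h4 : ∑ x, ∑ y, (μ x : ℂ) * (μ y : ℂ) * χ x y
        = ∑ p, ∑ q, (g p : ℂ) * (g q : ℂ) * χ (f p) (f q) := by
      have h5 : ∑ x, ∑ y, (μ x : ℂ) * (μ y : ℂ) * χ x y
          = ∑ x, (μ x : ℂ) * ∑ y, (μ y : ℂ) * χ x y := by
        refine Finset.sum_congr rfl (fun x _ => ?_)
        rw [Finset.mul_sum]
        refine Finset.sum_congr rfl (fun y _ => ?_)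
        ring
      rw [h5, hchangeC]
      refine Finset.sum_congr rfl (fun p _ => ?_)
      rw [hchangeC, Finset.mul_sum]
      refine Finset.sum_congr rfl (fun q _ => ?_)
      ring
    have h6 : (∑ p, ∑ q, (g p : ℂ) * (g q : ℂ) * χ (f p) (f q)).re
        = ∑ a, ∑ b, ∑ c', ∑ d, ν a * ν b * ν c' * ν d
        * Real.cos (2 * π * (((c a - c b) ⬝ᵥ B.mulVec (c c' - c d) : ℤ) : ℝ) / 2 ^ K) := by
      rw [Complex.re_sum, Fintype.sum_prod_type]
      refine Finset.sum_congr rfl (fun a _ => Finset.sum_congr rfl (fun b _ => ?_))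
      rw [Complex.re_sum, Fintype.sum_prod_type]
      refine Finset.sum_congr rfl (fun c' _ => Finset.sum_congr rfl (fun d _ => ?_))
      simp only [hf, hg]
      rw [hχint]
      have h7 : (2 * (π : ℂ) * Complex.I * (((c a - c b) ⬝ᵥ B.mulVec (c c' - c d) : ℤ) : ℂ)
          / ((2 ^ K : ℕ) : ℂ))
          = ((2 * π * (((c a - c b) ⬝ᵥ B.mulVec (c c' - c d) : ℤ) : ℝ) / 2 ^ K : ℝ) : ℂ)
            * Complex.I := by
        push_cast
        ring
      rw [h7]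
      have h8 : ((ν a * ν b : ℝ) : ℂ) * ((ν c' * ν d : ℝ) : ℂ)
          = ((ν a * ν b * ν c' * ν d : ℝ) : ℂ) := by
        push_cast
        ring
      rw [h8, Complex.re_ofReal_mul, Complex.exp_ofReal_mul_I_re]
    rw [h4]
    calc (1 : ℝ) / 2 ≤ (∑ p, ∑ q, (g p : ℂ) * (g q : ℂ) * χ (f p) (f q)).re := by
          rw [h6]; exact h3
      _ ≤ _ := Complex.re_le_norm _
  have hcardG : Fintype.card (Gp K r) ≤ 2 ^ (K * m) := by
    have h4 : Fintype.card (Gp K r) = (2 ^ K) ^ r := by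
      simp [Gp, ZMod.card]
    rw [h4, ← pow_mul]
    exact pow_le_pow_right₀ (by norm_num) (Nat.mul_le_mul_left K hr)
  have hexp : ∀ x : Gp K r, (2 ^ K) • x = 0 := by
    intro x
    funext i
    rw [Pi.smul_apply, Pi.zero_apply, nsmul_eq_mul, ZMod.natCast_self, zero_mul]
  have hτm : (2 : ℝ) ^ (-(τ * m)) ≤ 1 / 2 := by
    have h4 : (2 : ℝ) ^ (-(τ * m)) ≤ (2 : ℝ) ^ (-(1 : ℝ)) :=
      Real.rpow_le_rpow_of_exponent_le (by norm_num) (by linarith)
    rw [Real.rpow_neg_one] at h4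
    linarith
  obtain ⟨H, x0, y0, hx0, hy0⟩ := hm1 m hm1' (Gp K r) (Gp K r) hexp hcardG χ
    ⟨hχnorm, hχadd1, hχadd2⟩ μ μ ⟨hμ0, hμ1⟩ ⟨hμ0, hμ1⟩ (hτm.trans hbig)
  have hcardY : (0 : ℝ) < Fintype.card Y := by exact_mod_cast Fintype.card_pos
  -- from a popular set of differences to a fibre
  have hfib : ∀ (P : Gp K r → Prop),
      (2 : ℝ) ^ (-(δ * m)) ≤ ∑ x ∈ (Set.toFinite {x | P x}).toFinset, μ x →
      ∃ (b : Y) (Z : Finset Y), (2 : ℝ) ^ (-(δ * m)) * Real.exp (-(A * M)) * Fintype.card Y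
        ≤ (Z.card : ℝ) ∧ ∀ a ∈ Z, P (rd a - rd b) := by
    intro P hP
    have h4 : ∑ x ∈ (Set.toFinite {x | P x}).toFinset, μ x
        = ∑ x, μ x * (if P x then 1 else 0) := by
      have h5 : (Set.toFinite {x | P x}).toFinset = Finset.univ.filter P := by
        ext x
        simp
      rw [h5, Finset.sum_filter]
      refine Finset.sum_congr rfl (fun x _ => ?_)
      split_ifs <;> simp
    rw [h4, hchange, Fintype.sum_prod_type, Finset.sum_comm] at hP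
    have h5 : ∑ b, ∑ a, g (a, b) * (if P (f (a, b)) then (1 : ℝ) else 0)
        = ∑ b, ν b * ∑ a, ν a * (if P (rd a - rd b) then (1 : ℝ) else 0) := by
      refine Finset.sum_congr rfl (fun b _ => ?_)
      rw [Finset.mul_sum]
      refine Finset.sum_congr rfl (fun a _ => ?_)
      simp only [hg, hf]
      ring
    rw [h5] at hP
    obtain ⟨b, hb⟩ := exists_of_avg ν h0 h1 _ _ hP
    refine ⟨b, Finset.univ.filter (fun a => P (rd a - rd b)), ?_, fun a ha =>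
      (Finset.mem_filter.1 ha).2⟩
    have h6 : ∑ a, ν a * (if P (rd a - rd b) then (1 : ℝ) else 0)
        ≤ ((Finset.univ.filter (fun a => P (rd a - rd b))).card : ℝ)
          * (Real.exp (A * M) / Fintype.card Y) := by
      have h7 : ∀ a, ν a * (if P (rd a - rd b) then (1 : ℝ) else 0)
          = if P (rd a - rd b) then ν a else 0 := by
        intro a
        split_ifs <;> simp
      simp_rw [h7]
      rw [← Finset.sum_filter]
      refine (Finset.sum_le_card_nsmul _ _ _ (fun a _ => h2 a)).trans ?_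
      rw [nsmul_eq_mul]
    have h8 := hb.trans h6
    have h9 : (0 : ℝ) < Real.exp (-(A * M)) * Fintype.card Y := by positivity
    have h10 := mul_le_mul_of_nonneg_right h8 h9.le
    have h11 : ((Finset.univ.filter (fun a => P (rd a - rd b))).card : ℝ)
          * (Real.exp (A * M) / Fintype.card Y) * (Real.exp (-(A * M)) * Fintype.card Y)
        = ((Finset.univ.filter (fun a => P (rd a - rd b))).card : ℝ) := by
      rw [Real.exp_neg]
      field_simp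
    rw [h11] at h10
    linarith
  obtain ⟨b, Z', hb, hb'⟩ := hfib (fun x => x - x0 ∈ H) hx0
  obtain ⟨d, Z'', hd, hd'⟩ := hfib (fun y => ∀ h ∈ H, χ h y = χ h y0) hy0
  refine ⟨Z', Z'', hb, hd, ?_⟩
  intro u hu u' hu' v hv v' hv'
  have h4 : rd u - rd u' ∈ H := by
    have h5 := H.sub_mem (hb' u hu) (hb' u' hu')
    have h6 : rd u - rd b - x0 - (rd u' - rd b - x0) = rd u - rd u' := by abel
    rwa [h6] at h5
  have h7 := hd' v hv _ h4
  have h8 := hd' v' hv' _ h4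
  have h9 : χ (rd u - rd u') (rd v - rd v') = 1 := by
    have h10 : rd v - rd d = (rd v - rd v') + (rd v' - rd d) := by abel
    rw [h10, hχadd2, h8] at h7
    have h11 : χ (rd u - rd u') y0 ≠ 0 := by
      intro h12
      have h13 := hχnorm (rd u - rd u') y0
      rw [h12, norm_zero] at h13
      exact one_ne_zero h13.symm
    exact mul_right_cancel₀ h11 (by rw [h7, one_mul])
  simp only [hχ, hrd] at h9
  rw [← red_sub, ← red_sub] at h9
  exact dvd_of_chi_red_eq_one B _ _ h9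

end Pool.Agent.Lib.EndG
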