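import Mathlib

/-!
# Cells: many points of a family are close to each other in given blocks of coordinates
-/

set_option autoImplicit false

open Finset Real

namespace Pool.Agent.Lib.EndG

/-- weights `q ^ |z|` on `ℤ ∩ [-M, M]` have sum at most `2 / (1 - q)`. -/
theorem sum_pow_natAbs_le {q : ℝ} (h0 : 0 ≤ q) (h1 : q < 1) (M : ℕ) :
    ∑ z ∈ Finset.Icc (-(M : ℤ)) M, q ^ z.natAbs ≤ 2 / (1 - q) := by
  have hsub : Finset.Icc (-(M : ℤ)) M ⊆
      (Finset.range (M + 1)).image (fun n : ℕ => (n : ℤ)) ∪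
      (Finset.range (M + 1)).image (fun n : ℕ => -(n : ℤ)) := by
    intro z hz
    rw [Finset.mem_Icc] at hz
    rw [Finset.mem_union, Finset.mem_image, Finset.mem_image]
    rcases le_total 0 z with h | h
    · left
      exact ⟨z.natAbs, by rw [Finset.mem_range]; omega, by omega⟩
    · right
      exact ⟨z.natAbs, by rw [Finset.mem_range]; omega, by omega⟩
  have hgeom : ∑ n ∈ Finset.range (M + 1), q ^ n ≤ 1 / (1 - q) := by
    rw [geom_sum_eq h1.ne, ← neg_div_neg_eq, neg_sub, neg_sub]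
    have h2 : 0 ≤ q ^ (M + 1) := pow_nonneg h0 _
    exact div_le_div_of_nonneg_right (by linarith) (by linarith)
  calc ∑ z ∈ Finset.Icc (-(M : ℤ)) M, q ^ z.natAbs
      ≤ ∑ z ∈ ((Finset.range (M + 1)).image (fun n : ℕ => (n : ℤ)) ∪
      (Finset.range (M + 1)).image (fun n : ℕ => -(n : ℤ))), q ^ z.natAbs :=
        Finset.sum_le_sum_of_subset_of_nonneg hsub (fun _ _ _ => pow_nonneg h0 _)
    _ ≤ ∑ z ∈ (Finset.range (M + 1)).image (fun n : ℕ => (n : ℤ)), q ^ z.natAbs
        + ∑ z ∈ (Finset.range (M + 1)).image (fun n : ℕ => -(n : ℤ)), q ^ z.natAbs := by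
        have := Finset.sum_union_inter (s₁ := (Finset.range (M + 1)).image (fun n : ℕ => (n : ℤ)))
          (s₂ := (Finset.range (M + 1)).image (fun n : ℕ => -(n : ℤ)))
          (f := fun z : ℤ => q ^ z.natAbs)
        have h3 : 0 ≤ ∑ z ∈ (Finset.range (M + 1)).image (fun n : ℕ => (n : ℤ)) ∩
          (Finset.range (M + 1)).image (fun n : ℕ => -(n : ℤ)), q ^ z.natAbs :=
          Finset.sum_nonneg (fun _ _ => pow_nonneg h0 _)
        linarith
    _ = ∑ n ∈ Finset.range (M + 1), q ^ n + ∑ n ∈ Finset.range (M + 1), q ^ n := by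
        congr 1
        · rw [Finset.sum_image (fun a _ b _ h => by exact_mod_cast h)]
          simp
        · rw [Finset.sum_image (fun a _ b _ h => by simpa using h)]
          simp
    _ ≤ 2 / (1 - q) := by
        have : (2 : ℝ) / (1 - q) = 1 / (1 - q) + 1 / (1 - q) := by ring
        rw [this]
        exact add_le_add hgeom hgeom

/-- The number of integer vectors with `∑ |z i| ≤ N d` is at most `(6 (N + 1)) ^ d`. -/
theorem card_int_le {ι : Type*} [Fintype ι] (S : Finset (ι → ℤ)) (N : ℝ) (hN : 0 < N)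
    (h : ∀ z ∈ S, ∑ i, |(z i : ℝ)| ≤ N * Fintype.card ι) :
    (S.card : ℝ) ≤ (6 * (N + 1)) ^ Fintype.card ι := by
  classical
  set d := Fintype.card ι with hd
  set q : ℝ := N / (N + 1) with hq
  have hq0 : 0 < q := by positivity
  have hq1 : q < 1 := by rw [hq, div_lt_one (by linarith)]; linarith
  have h1q : 1 - q = 1 / (N + 1) := by rw [hq]; field_simp; ring
  -- a common bound
  obtain ⟨M, hM⟩ := exists_nat_ge (N * d)
  have hbox : ∀ z ∈ S, z ∈ Fintype.piFinset (fun _ : ι => Finset.Icc (-(M : ℤ)) M) := by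
    intro z hz
    rw [Fintype.mem_piFinset]
    intro i
    have h2 : |(z i : ℝ)| ≤ M := by
      refine le_trans ?_ ((h z hz).trans hM)
      exact Finset.single_le_sum (f := fun i => |(z i : ℝ)|) (fun _ _ => abs_nonneg _)
        (Finset.mem_univ i)
    rw [Finset.mem_Icc]
    have h3 : |z i| ≤ (M : ℤ) := by exact_mod_cast h2
    exact abs_le.1 h3
  have h2 : ∑ z ∈ S, ∏ i, q ^ (z i).natAbs ≤ (2 / (1 - q)) ^ d := by
    calc ∑ z ∈ S, ∏ i, q ^ (z i).natAbs
        ≤ ∑ z ∈ Fintype.piFinset (fun _ : ι => Finset.Icc (-(M : ℤ)) M),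
          ∏ i, q ^ (z i).natAbs :=
          Finset.sum_le_sum_of_subset_of_nonneg hbox
            (fun _ _ _ => Finset.prod_nonneg (fun _ _ => pow_nonneg hq0.le _))
      _ = ∏ _i : ι, ∑ z ∈ Finset.Icc (-(M : ℤ)) M, q ^ z.natAbs := by
          rw [Finset.prod_univ_sum]
      _ ≤ ∏ _i : ι, (2 / (1 - q)) :=
          Finset.prod_le_prod (fun _ _ => Finset.sum_nonneg (fun _ _ => pow_nonneg hq0.le _))
            (fun _ _ => sum_pow_natAbs_le hq0.le hq1 M)
      _ = (2 / (1 - q)) ^ d := by rw [Finset.prod_const, Finset.card_univ]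
  have h3 : ∀ z ∈ S, Real.exp (-(d : ℝ)) ≤ ∏ i, q ^ (z i).natAbs := by
    intro z hz
    have h4 : ∏ i, q ^ (z i).natAbs = Real.exp (Real.log q * ∑ i, |(z i : ℝ)|) := by
      rw [Finset.mul_sum, Real.exp_sum]
      refine Finset.prod_congr rfl (fun i _ => ?_)
      have h5 : |(z i : ℝ)| = ((z i).natAbs : ℝ) := by
        rw [Nat.cast_natAbs, Int.cast_abs]
      rw [h5, mul_comm, Real.exp_nat_mul, Real.exp_log hq0]
    rw [h4, Real.exp_le_exp]
    have h5 : -(1 / N) ≤ Real.log q := by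
      have h6 : Real.log q = -Real.log (q⁻¹) := by rw [Real.log_inv, neg_neg]
      rw [h6, neg_le_neg_iff]
      have h7 : q⁻¹ = 1 + 1 / N := by rw [hq]; field_simp
      have h8 := Real.log_le_sub_one_of_pos (inv_pos.2 hq0)
      rw [h7] at h8 ⊢
      linarith
    have h6 : 0 ≤ ∑ i, |(z i : ℝ)| := Finset.sum_nonneg (fun _ _ => abs_nonneg _)
    have h7 := h z hz
    have h8 : -(1 / N) * ∑ i, |(z i : ℝ)| ≤ Real.log q * ∑ i, |(z i : ℝ)| :=
      mul_le_mul_of_nonneg_right h5 h6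
    have h9 : (1 / N) * ∑ i, |(z i : ℝ)| ≤ d := by
      calc (1 / N) * ∑ i, |(z i : ℝ)| ≤ (1 / N) * (N * d) :=
            mul_le_mul_of_nonneg_left h7 (by positivity)
        _ = d := by field_simp
    linarith
  have h4 : (S.card : ℝ) * Real.exp (-(d : ℝ)) ≤ (2 / (1 - q)) ^ d := by
    calc (S.card : ℝ) * Real.exp (-(d : ℝ)) = ∑ z ∈ S, Real.exp (-(d : ℝ)) := by
          rw [Finset.sum_const, nsmul_eq_mul]
      _ ≤ ∑ z ∈ S, ∏ i, q ^ (z i).natAbs := Finset.sum_le_sum h3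
      _ ≤ _ := h2
  have h5 : (S.card : ℝ) ≤ (2 / (1 - q)) ^ d * Real.exp d := by
    have h6 := mul_le_mul_of_nonneg_right h4 (Real.exp_pos (d : ℝ)).le
    rwa [mul_assoc, ← Real.exp_add, neg_add_cancel, Real.exp_zero, mul_one] at h6
  refine h5.trans ?_
  have h6 : Real.exp (d : ℝ) = Real.exp 1 ^ d := by rw [← Real.exp_nat_mul, mul_one]
  rw [h6, ← mul_pow]
  refine pow_le_pow_left₀ (by rw [h1q]; positivity) ?_ _
  rw [h1q]
  have h7 : Real.exp 1 ≤ 3 := by
    have := Real.exp_one_lt_d9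
    linarith
  have h8 : 2 / (1 / (N + 1)) = 2 * (N + 1) := by field_simp
  rw [h8]
  nlinarith

/-- pigeonhole with real bounds -/
theorem exists_fiber {α β : Type*} [DecidableEq β] (Y : Finset α) (hY : Y.Nonempty) (f : α → β)
    (c : ℝ) (hc : ((Y.image f).card : ℝ) ≤ c) :
    ∃ Y' ⊆ Y, Y'.Nonempty ∧ (Y.card : ℝ) ≤ c * Y'.card ∧ ∀ a ∈ Y', ∀ b ∈ Y', f a = f b := by
  classical
  obtain ⟨b0, hb0, hmax⟩ := Finset.exists_max_image (Y.image f)
    (fun b => (Y.filter (fun a => f a = b)).card) (hY.image f)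
  refine ⟨Y.filter (fun a => f a = b0), Finset.filter_subset _ _, ?_, ?_, ?_⟩
  · obtain ⟨a, ha, hab⟩ := Finset.mem_image.1 hb0
    exact ⟨a, Finset.mem_filter.2 ⟨ha, hab⟩⟩
  · have h1 : Y.card ≤ (Y.image f).card * (Y.filter (fun a => f a = b0)).card := by
      rw [Finset.card_eq_sum_card_image f Y]
      refine (Finset.sum_le_card_nsmul _ _ _ (fun b hb => hmax b hb)).trans ?_
      rw [smul_eq_mul]
    have h2 : (Y.card : ℝ) ≤ ((Y.image f).card : ℝ) * (Y.filter (fun a => f a = b0)).card := by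
      exact_mod_cast h1
    exact h2.trans (mul_le_mul_of_nonneg_right hc (Nat.cast_nonneg _))
  · intro a ha b hb
    rw [(Finset.mem_filter.1 ha).2, (Finset.mem_filter.1 hb).2]

/-- **One block.** -/
theorem one_block {α ι : Type*} (Y : Finset α) (hY : Y.Nonempty)
    (M : Finset ι) (a : α → ι → ℝ) (R ρ : ℝ) (hR : 0 < R) (hρ : 0 < ρ)
    (hb : ∀ y ∈ Y, ∑ i ∈ M, a y i ^ 2 ≤ R ^ 2) :
    ∃ Y' ⊆ Y, Y'.Nonempty ∧ (Y.card : ℝ) ≤ (6 * (R / ρ + 2)) ^ M.card * Y'.card ∧
      ∀ y ∈ Y', ∀ y' ∈ Y', ∑ i ∈ M, (a y i - a y' i) ^ 2 ≤ ρ ^ 2 := by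
  classical
  rcases M.eq_empty_or_nonempty with hM | hM
  · subst hM
    refine ⟨Y, Finset.Subset.refl _, hY, by simp, fun y _ y' _ => ?_⟩
    simp only [Finset.sum_empty]
    positivity
  have hd : 0 < (M.card : ℝ) := by exact_mod_cast hM.card_pos
  set s : ℝ := ρ / Real.sqrt M.card with hs
  have hsq : 0 < Real.sqrt (M.card : ℝ) := Real.sqrt_pos.2 hd
  have hs0 : 0 < s := by positivity
  set f : α → (M → ℤ) := fun y i => ⌊a y i / s⌋ with hf
  have hcount : (((Y.image f).card : ℕ) : ℝ) ≤ (6 * (R / ρ + 2)) ^ M.card := by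
    have h1 := card_int_le (Y.image f) (R / ρ + 1) (by positivity) (fun z hz => by
      obtain ⟨y, hy, rfl⟩ := Finset.mem_image.1 hz
      have h2 : ∀ i : M, |((f y i : ℤ) : ℝ)| ≤ |a y i| / s + 1 := by
        intro i
        have h3 : |a y i| / s = |a y i / s| := by rw [abs_div, abs_of_pos hs0]
        rw [h3]
        have h4 := Int.floor_le (a y i / s)
        have h5 := Int.lt_floor_add_one (a y i / s)
        simp only [hf]
        rw [abs_le]
        constructor
        · have := neg_abs_le (a y i / s)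
          linarith
        · have := le_abs_self (a y i / s)
          linarith
      have h6 : ∑ i : M, |((f y i : ℤ) : ℝ)| ≤ ∑ i : M, (|a y i| / s + 1) :=
        Finset.sum_le_sum (fun i _ => h2 i)
      refine h6.trans ?_
      rw [Finset.sum_add_distrib, ← Finset.sum_div, Finset.sum_const, Finset.card_univ,
        Fintype.card_coe, nsmul_eq_mul, mul_one]
      have h7 : ∑ i : M, |a y i| ≤ Real.sqrt M.card * R := by
        have h8 : (∑ i : M, |a y i|) ^ 2 ≤ M.card * ∑ i : M, |a y i| ^ 2 := by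
          have := sq_sum_le_card_mul_sum_sq (s := (Finset.univ : Finset M))
            (f := fun i : M => |a y i|)
          rwa [Finset.card_univ, Fintype.card_coe] at this
        have h9 : ∑ i : M, |a y i| ^ 2 ≤ R ^ 2 := by
          have h10 : ∑ i : M, |a y i| ^ 2 = ∑ i ∈ M, a y i ^ 2 := by
            rw [Finset.univ_eq_attach, ← Finset.sum_attach M (fun i => a y i ^ 2)]
            exact Finset.sum_congr rfl (fun i _ => sq_abs _)
          rw [h10]
          exact hb y hy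
        refine (pow_le_pow_iff_left₀ (Finset.sum_nonneg (fun _ _ => abs_nonneg _))
          (by positivity) (two_ne_zero)).1 ?_
        rw [mul_pow, Real.sq_sqrt hd.le]
        exact h8.trans (mul_le_mul_of_nonneg_left h9 hd.le)
      have h11 : (∑ i : M, |a y i|) / s ≤ M.card * (R / ρ) := by
        rw [div_le_iff₀ hs0, hs]
        refine h7.trans (le_of_eq ?_)
        have h12 : (M.card : ℝ) * (R / ρ) * (ρ / Real.sqrt M.card)
            = R * ((M.card : ℝ) / Real.sqrt M.card) := by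
          have := hρ.ne'
          have := hsq.ne'
          field_simp
        rw [h12, Real.div_sqrt, mul_comm]
      linarith)
    rw [Fintype.card_coe] at h1
    have h13 : R / ρ + 1 + 1 = R / ρ + 2 := by ring
    rw [h13] at h1
    exact h1
  obtain ⟨Y', hsub, hne, hcard, hfib⟩ := exists_fiber Y hY f _ hcount
  refine ⟨Y', hsub, hne, hcard, fun y hy y' hy' => ?_⟩
  have h1 : ∀ i ∈ M, (a y i - a y' i) ^ 2 ≤ s ^ 2 := by
    intro i hi
    have h2 : ⌊a y i / s⌋ = ⌊a y' i / s⌋ := congrFun (hfib y hy y' hy') ⟨i, hi⟩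
    have h3 := Int.abs_sub_lt_one_of_floor_eq_floor h2
    have h4 : |a y i - a y' i| ≤ s := by
      have h5 : a y i / s - a y' i / s = (a y i - a y' i) / s := by ring
      rw [h5, abs_div, abs_of_pos hs0, div_lt_one hs0] at h3
      exact h3.le
    rw [← sq_abs]
    exact pow_le_pow_left₀ (abs_nonneg _) h4 2
  refine (Finset.sum_le_card_nsmul _ _ _ h1).trans (le_of_eq ?_)
  rw [nsmul_eq_mul, hs, div_pow, Real.sq_sqrt hd.le]
  field_simp

/-- **Many blocks.** -/
theorem many_blocks {α ι : Type*} (Y : Finset α) (hY : Y.Nonempty)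
    (M : ℕ → Finset ι) (a : α → ι → ℝ) (R : ℝ) (ρ : ℕ → ℝ) (hR : 0 < R) (hρ : ∀ j, 0 < ρ j)
    (hb : ∀ y ∈ Y, ∀ j, ∑ i ∈ M j, a y i ^ 2 ≤ R ^ 2) (s : Finset ℕ) :
    ∃ Y' ⊆ Y, Y'.Nonempty ∧ (Y.card : ℝ) ≤ (∏ j ∈ s, (6 * (R / ρ j + 2)) ^ (M j).card) * Y'.card ∧
      ∀ j ∈ s, ∀ y ∈ Y', ∀ y' ∈ Y', ∑ i ∈ M j, (a y i - a y' i) ^ 2 ≤ ρ j ^ 2 := by
  classical
  induction s using Finset.induction_on with
  | empty => exact ⟨Y, Finset.Subset.refl _, hY, by simp, fun j hj => absurd hj (by simp)⟩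
  | insert j s hj ih =>
    obtain ⟨Y1, hsub1, hne1, hcard1, h1⟩ := ih
    obtain ⟨Y2, hsub2, hne2, hcard2, h2⟩ := one_block Y1 hne1 (M j) a R (ρ j) hR (hρ j)
      (fun y hy => hb y (hsub1 hy) j)
    refine ⟨Y2, hsub2.trans hsub1, hne2, ?_, ?_⟩
    · rw [Finset.prod_insert hj]
      have h3 : 0 ≤ ∏ j ∈ s, (6 * (R / ρ j + 2)) ^ (M j).card :=
        Finset.prod_nonneg (fun i _ => by have := hρ i; positivity)
      calc (Y.card : ℝ) ≤ (∏ j ∈ s, (6 * (R / ρ j + 2)) ^ (M j).card) * Y1.card := hcard1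
        _ ≤ (∏ j ∈ s, (6 * (R / ρ j + 2)) ^ (M j).card)
            * ((6 * (R / ρ j + 2)) ^ (M j).card * Y2.card) :=
            mul_le_mul_of_nonneg_left hcard2 h3
        _ = _ := by ring
    · intro i hi y hy y' hy'
      rcases Finset.mem_insert.1 hi with rfl | hi
      · exact h2 y hy y' hy'
      · exact h1 i hi y (hsub2 hy) y' (hsub2 hy')

end Pool.Agent.Lib.EndG
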