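import Pool.Agent.Lib.Cnv.Orth

/-!
# EndG.Irr: irreducible pieces, and one totally isotropic set (end game of route P, sections 4, 5)

Let `V_Z` be the group generated by the differences of `Z`.  `Y2 ⊆ Y1` is a maximiser of
`log |Z| - lam * log |V_Z|`; then every large part of `Y2` has a difference group of small index, and two
large parts which are orthogonal give one large totally isotropic part.
-/

set_option autoImplicit false

namespace Pool.Agent.Lib.EndG

open Pool.Agent.Lib.Cnv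

theorem orth_spanDiff {G Rr Y : Type} [AddCommGroup G] [AddCommGroup Rr] (b : G →+ G →+ Rr)
    (c : Y → G) (Z' Z'' : Finset Y)
    (h : ∀ u ∈ Z', ∀ u' ∈ Z', ∀ v ∈ Z'', ∀ v' ∈ Z'', b (c u - c u') (c v - c v') = 0) :
    ∀ x ∈ spanDiff c Z', ∀ y ∈ spanDiff c Z'', b x y = 0 := by
  intro x hx y hy
  unfold spanDiff at hx hy
  induction hx using AddSubgroup.closure_induction with
  | mem x hx =>
    obtain ⟨u, hu, u', hu', rfl⟩ := hx
    induction hy using AddSubgroup.closure_induction with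
    | mem y hy =>
      obtain ⟨v, hv, v', hv', rfl⟩ := hy
      exact h u hu u' hu' v hv v' hv'
    | zero => simp
    | add y y' _ _ h1 h2 => rw [map_add, h1, h2, add_zero]
    | neg y _ h1 => rw [map_neg, h1, neg_zero]
  | zero => simp
  | add x x' _ _ h1 h2 => rw [map_add, AddMonoidHom.add_apply, h1, h2, add_zero]
  | neg x _ h1 => rw [map_neg, AddMonoidHom.neg_apply, h1, neg_zero]

theorem irr (k : ℕ) (eps : ℝ) (heps : 0 < eps) : ∃ e : ℝ, 0 < e ∧ ∀ (m : ℝ), 0 < m →
    ∀ (G : Type) [AddCommGroup G] [Finite G], (Nat.card G : ℝ) ≤ (2 : ℝ) ^ (k * m) →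
    ∀ (Rr : Type) [AddCommGroup Rr] (b : G →+ G →+ Rr), (∀ x y, b x y = b y x) →
    ∀ (Y : Type) [DecidableEq Y] (c : Y → G) (Y1 : Finset Y), Y1.Nonempty →
    (∀ y ∈ Y1, b (c y) (c y) = 0) →
    ∃ Y2 : Finset Y, Y2 ⊆ Y1 ∧ Y2.Nonempty ∧
      ∀ Z' Z'' : Finset Y, Z' ⊆ Y2 → Z'' ⊆ Y2 →
        (2 : ℝ) ^ (-(e * m)) * (Y2.card : ℝ) ≤ Z'.card →
        (2 : ℝ) ^ (-(e * m)) * (Y2.card : ℝ) ≤ Z''.card →
        (∀ u ∈ Z', ∀ u' ∈ Z', ∀ v ∈ Z'', ∀ v' ∈ Z'', b (c u - c u') (c v - c v') = 0) →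
        ∃ Z : Finset Y, Z ⊆ Y2 ∧ (2 : ℝ) ^ (-(eps * m)) * (Y1.card : ℝ) ≤ Z.card ∧
          ∀ u ∈ Z, ∀ u' ∈ Z, (2 : ℕ) • b (c u) (c u') = 0 := by
  classical
  set lam : ℝ := eps / (4 * (k + 1)) with hlam
  have hk1 : (0 : ℝ) < k + 1 := by positivity
  have hlam0 : 0 < lam := by rw [hlam]; positivity
  refine ⟨lam * (eps / 4), by positivity, ?_⟩
  intro m hm G _ _ hG Rr _ b hb Y _ c Y1 hY1 hiso
  -- the size of the difference group
  set s : Finset Y → ℝ := fun Z => Real.logb 2 (Nat.card (spanDiff c Z)) with hs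
  have hs0 : ∀ Z, 0 ≤ s Z := fun Z => by
    refine Real.logb_nonneg one_lt_two ?_
    have : 0 < Nat.card (spanDiff c Z) := Nat.card_pos
    exact_mod_cast this
  have hsk : ∀ Z, s Z ≤ k * m := fun Z => by
    rw [hs]
    dsimp only
    rw [Real.logb_le_iff_le_rpow one_lt_two (by exact_mod_cast Nat.card_pos)]
    refine le_trans ?_ hG
    exact_mod_cast AddSubgroup.card_le_card_addGroup (spanDiff c Z)
  obtain ⟨Y2, hY2, hmax⟩ := (Y1.powerset.filter (fun Z => Z.Nonempty)).exists_max_image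
    (fun Z => Real.logb 2 Z.card - lam * s Z) ⟨Y1, by simp [hY1]⟩
  rw [Finset.mem_filter, Finset.mem_powerset] at hY2
  obtain ⟨hY21, hY2n⟩ := hY2
  refine ⟨Y2, hY21, hY2n, ?_⟩
  have hc1 : (0 : ℝ) < Y1.card := by exact_mod_cast hY1.card_pos
  have hc2 : (0 : ℝ) < Y2.card := by exact_mod_cast hY2n.card_pos
  -- size of Y2
  have hsize : Real.logb 2 Y1.card - eps / 4 * m ≤ Real.logb 2 Y2.card := by
    have h1 := hmax Y1 (by simp [hY1])
    have h2 : lam * s Y1 ≤ lam * (k * m) := mul_le_mul_of_nonneg_left (hsk Y1) hlam0.le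
    have h3 : 0 ≤ lam * s Y2 := mul_nonneg hlam0.le (hs0 Y2)
    have h4 : lam * (k * m) ≤ eps / 4 * m := by
      rw [hlam, ← mul_assoc]
      refine mul_le_mul_of_nonneg_right ?_ hm.le
      rw [div_mul_eq_mul_div, div_le_div_iff₀ (by positivity) (by norm_num)]
      nlinarith [heps, (Nat.cast_nonneg k : (0 : ℝ) ≤ k)]
    linarith
  -- index of the difference group of a large part
  have hidx : ∀ Z' : Finset Y, Z' ⊆ Y2 →
      (2 : ℝ) ^ (-(lam * (eps / 4) * m)) * (Y2.card : ℝ) ≤ Z'.card →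
      (((spanDiff c Z').relIndex (spanDiff c Y2) : ℕ) : ℝ) ≤ (2 : ℝ) ^ (eps / 4 * m) := by
    intro Z' hZ' hcard
    have hp : (0 : ℝ) < Z'.card := lt_of_lt_of_le (by positivity) hcard
    have hne : Z'.Nonempty := by
      rw [← Finset.card_pos]
      exact_mod_cast hp
    have h1 := hmax Z' (by simp [hne, hZ'.trans hY21])
    have h2 : Real.logb 2 Y2.card - lam * (eps / 4) * m ≤ Real.logb 2 Z'.card := by
      have h3 := Real.logb_le_logb_of_le one_lt_two (by positivity) hcard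
      rw [Real.logb_mul (by positivity) hc2.ne', Real.logb_rpow two_pos (by norm_num)] at h3
      linarith
    have h3 : lam * (s Y2 - s Z') ≤ lam * (eps / 4 * m) := by
      have : lam * (s Y2 - s Z') = lam * s Y2 - lam * s Z' := by ring
      rw [this]
      have : lam * (eps / 4 * m) = lam * (eps / 4) * m := by ring
      rw [this]
      linarith
    have h4 : s Y2 - s Z' ≤ eps / 4 * m := le_of_mul_le_mul_left h3 hlam0
    have h5 : spanDiff c Z' ≤ spanDiff c Y2 := spanDiff_mono c hZ'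
    have h6 : Nat.card (spanDiff c Z') * (spanDiff c Z').relIndex (spanDiff c Y2) =
        Nat.card (spanDiff c Y2) := by
      have h8 := AddSubgroup.relIndex_mul_relIndex (⊥ : AddSubgroup G) (spanDiff c Z') (spanDiff c Y2)
        bot_le h5
      rwa [AddSubgroup.relIndex_bot_left, AddSubgroup.relIndex_bot_left] at h8
    have hc' : (0 : ℝ) < Nat.card (spanDiff c Z') := by exact_mod_cast Nat.card_pos
    have hr0 : (0 : ℝ) < (((spanDiff c Z').relIndex (spanDiff c Y2) : ℕ) : ℝ) := by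
      have : (spanDiff c Z').relIndex (spanDiff c Y2) ≠ 0 := by
        intro h7
        rw [h7, mul_zero] at h6
        exact absurd h6.symm (Nat.card_pos (α := spanDiff c Y2)).ne'
      exact_mod_cast Nat.pos_of_ne_zero this
    have h7 : s Y2 = s Z' + Real.logb 2 (((spanDiff c Z').relIndex (spanDiff c Y2) : ℕ) : ℝ) := by
      rw [hs]
      dsimp only
      rw [← Real.logb_mul hc'.ne' hr0.ne', ← Nat.cast_mul, h6]
    rw [← Real.logb_le_iff_le_rpow one_lt_two hr0]
    linarith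
  intro Z' Z'' hZ' hZ'' hc' hc'' ho
  have hi' := hidx Z' hZ' hc'
  have hi'' := hidx Z'' hZ'' hc''
  have hort := orth_spanDiff b c Z' Z'' ho
  obtain ⟨Z, hZ, hd, hcard⟩ := exists_coset c (fun _ => (1 : ℝ)) Y2
    (spanDiff c Z' ⊓ spanDiff c Z'') (spanDiff c Y2) (fun a ha b hb => sub_mem_spanDiff c ha hb)
  refine ⟨Z, hZ, ?_, ?_⟩
  · simp only [Finset.sum_const, nsmul_eq_mul, mul_one] at hcard
    have h1 : (((spanDiff c Z' ⊓ spanDiff c Z'').relIndex (spanDiff c Y2) : ℕ) : ℝ) ≤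
        (2 : ℝ) ^ (eps / 4 * m) * (2 : ℝ) ^ (eps / 4 * m) := by
      refine le_trans ?_ (mul_le_mul hi' hi'' (Nat.cast_nonneg _) (by positivity))
      exact_mod_cast AddSubgroup.relIndex_inf_le (H := spanDiff c Z') (K := spanDiff c Z'')
        (L := spanDiff c Y2)
    have h2 : (Y2.card : ℝ) ≤ (2 : ℝ) ^ (eps / 4 * m) * (2 : ℝ) ^ (eps / 4 * m) * Z.card :=
      le_trans hcard (mul_le_mul_of_nonneg_right h1 (Nat.cast_nonneg _))
    have h3 : (Y1.card : ℝ) ≤ (2 : ℝ) ^ (eps / 4 * m) * Y2.card := by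
      have h4 : Real.logb 2 Y1.card ≤ Real.logb 2 ((2 : ℝ) ^ (eps / 4 * m) * Y2.card) := by
        rw [Real.logb_mul (by positivity) hc2.ne', Real.logb_rpow two_pos (by norm_num)]
        linarith
      exact (Real.logb_le_logb one_lt_two hc1 (by positivity)).1 h4
    have h4 : (Y1.card : ℝ) ≤ (2 : ℝ) ^ (eps * m) * Z.card := by
      calc (Y1.card : ℝ) ≤ (2 : ℝ) ^ (eps / 4 * m) * Y2.card := h3
        _ ≤ (2 : ℝ) ^ (eps / 4 * m) *
            ((2 : ℝ) ^ (eps / 4 * m) * (2 : ℝ) ^ (eps / 4 * m) * Z.card) :=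
            mul_le_mul_of_nonneg_left h2 (by positivity)
        _ = (2 : ℝ) ^ (eps / 4 * m + (eps / 4 * m + eps / 4 * m)) * Z.card := by
            rw [Real.rpow_add two_pos, Real.rpow_add two_pos]
            ring
        _ ≤ (2 : ℝ) ^ (eps * m) * Z.card := by
            refine mul_le_mul_of_nonneg_right ?_ (Nat.cast_nonneg _)
            refine Real.rpow_le_rpow_of_exponent_le one_le_two ?_
            nlinarith [mul_pos heps hm]
    rw [Real.rpow_neg two_pos.le, inv_mul_le_iff₀ (by positivity)]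
    exact h4
  · intro u hu u' hu'
    have h1 := hd u hu u' hu'
    have h2 := hort _ h1.1 _ h1.2
    rw [map_sub, map_sub b, AddMonoidHom.sub_apply, AddMonoidHom.sub_apply, hiso u (hY21 (hZ hu)),
      hiso u' (hY21 (hZ hu')), hb (c u') (c u)] at h2
    have h3 : (2 : ℕ) • b (c u) (c u') = -(0 - b (c u) (c u') - (b (c u) (c u') - 0)) := by
      rw [two_nsmul]
      abel
    rw [h3, h2, neg_zero]

end Pool.Agent.Lib.EndG
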