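import Mathlib
import Pool.Agent.Lib.EndG.Bias
import Pool.Agent.Lib.EndG.Irr

/-!
# The core of the end game: one set on which an integral form vanishes mod `2 ^ k`
-/

set_option autoImplicit false

open Finset Real Matrix
open scoped InnerProductSpace

namespace Pool.Agent.Lib.EndG

/-- Coordinates with respect to a `ℤ`-basis of the span of `X`. -/
theorem exists_coords {m : ℕ} (X : Set (Fin m → ℤ)) (β : (Fin m → ℤ) →ₗ[ℤ] (Fin m → ℤ) →ₗ[ℤ] ℚ)
    (hs : ∀ x y, β x y = β y x) (hint : ∀ x ∈ X, ∀ y ∈ X, ∃ k : ℤ, β x y = k) :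
    ∃ (r : ℕ) (c : (Fin m → ℤ) → Fin r → ℤ) (B : Matrix (Fin r) (Fin r) ℤ), r ≤ m ∧
      (∀ i j, B i j = B j i) ∧
      ∀ x ∈ X, ∀ y ∈ X, β x y = ((c x ⬝ᵥ B.mulVec (c y) : ℤ) : ℚ) := by
  classical
  set L : Submodule ℤ (Fin m → ℤ) := Submodule.span ℤ X with hL
  obtain ⟨r, b⟩ := Submodule.basisOfPid (Pi.basisFun ℤ (Fin m)) L
  have hr : r ≤ m := by
    have h1 : Module.finrank ℤ L = r := by
      rw [Module.finrank_eq_card_basis b, Fintype.card_fin]
    have h2 : Module.finrank ℤ L ≤ Module.finrank ℤ (Fin m → ℤ) := Submodule.finrank_le L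
    rw [h1, Module.finrank_fintype_fun_eq_card, Fintype.card_fin] at h2
    exact h2
  have hint1 : ∀ x ∈ X, ∀ y ∈ L, ∃ k : ℤ, β x y = k := by
    intro x hx y hy
    induction hy using Submodule.span_induction with
    | mem y hy => exact hint x hx y hy
    | zero => exact ⟨0, by simp⟩
    | add y z _ _ h1 h2 =>
      obtain ⟨k1, hk1⟩ := h1
      obtain ⟨k2, hk2⟩ := h2
      exact ⟨k1 + k2, by rw [map_add, hk1, hk2]; push_cast; rfl⟩
    | smul a y _ h1 =>
      obtain ⟨k1, hk1⟩ := h1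
      exact ⟨a * k1, by rw [map_smul, hk1, zsmul_eq_mul]; push_cast; rfl⟩
  have hint2 : ∀ x ∈ L, ∀ y ∈ L, ∃ k : ℤ, β x y = k := by
    intro x hx y hy
    induction hx using Submodule.span_induction with
    | mem x hx => exact hint1 x hx y hy
    | zero => exact ⟨0, by simp⟩
    | add x z _ _ h1 h2 =>
      obtain ⟨k1, hk1⟩ := h1
      obtain ⟨k2, hk2⟩ := h2
      exact ⟨k1 + k2, by rw [map_add, LinearMap.add_apply, hk1, hk2]; push_cast; rfl⟩
    | smul a x _ h1 =>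
      obtain ⟨k1, hk1⟩ := h1
      exact ⟨a * k1, by
        rw [map_smul, LinearMap.smul_apply, hk1, zsmul_eq_mul]; push_cast; rfl⟩
  have hB : ∀ i j : Fin r, ∃ k : ℤ, β (b i : Fin m → ℤ) (b j : Fin m → ℤ) = k :=
    fun i j => hint2 _ (b i).2 _ (b j).2
  choose B hB using hB
  refine ⟨r, fun x => if hx : x ∈ L then b.repr ⟨x, hx⟩ else 0, Matrix.of B, hr, ?_, ?_⟩
  · intro i j
    have h1 : ((B i j : ℤ) : ℚ) = B j i := by rw [← hB, ← hB, hs]
    exact_mod_cast h1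
  · intro x hx y hy
    have hxL : x ∈ L := Submodule.subset_span hx
    have hyL : y ∈ L := Submodule.subset_span hy
    simp only [dif_pos hxL, dif_pos hyL]
    have h1 : x = ∑ i, (b.repr ⟨x, hxL⟩ i) • (b i : Fin m → ℤ) := by
      have h2 := congrArg Subtype.val (b.sum_repr ⟨x, hxL⟩)
      simp only [Submodule.coe_sum, Submodule.coe_smul] at h2
      exact h2.symm
    have h3 : y = ∑ i, (b.repr ⟨y, hyL⟩ i) • (b i : Fin m → ℤ) := by
      have h2 := congrArg Subtype.val (b.sum_repr ⟨y, hyL⟩)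
      simp only [Submodule.coe_sum, Submodule.coe_smul] at h2
      exact h2.symm
    set cx := b.repr ⟨x, hxL⟩ with hcx
    set cy := b.repr ⟨y, hyL⟩ with hcy
    have h4 : β x y = ∑ i, ∑ j, ((cx i : ℤ) : ℚ) * (((cy j : ℤ) : ℚ) * (B i j : ℚ)) := by
      rw [h1, map_sum β, LinearMap.sum_apply]
      refine Finset.sum_congr rfl (fun i _ => ?_)
      rw [map_smul, LinearMap.smul_apply, h3, map_sum, Finset.smul_sum]
      refine Finset.sum_congr rfl (fun j _ => ?_)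
      rw [map_smul, hB, zsmul_eq_mul, zsmul_eq_mul]
    rw [h4]
    simp only [dotProduct, Matrix.mulVec, Matrix.of_apply]
    push_cast
    refine Finset.sum_congr rfl (fun i _ => ?_)
    rw [Finset.mul_sum]
    refine Finset.sum_congr rfl (fun j _ => ?_)
    ring

/-- the bilinear map of an integral matrix on `(ℤ/2^k)^r` -/
def bmap (k r : ℕ) (B : Matrix (Fin r) (Fin r) ℤ) : Gp k r →+ Gp k r →+ ZMod (2 ^ k) where
  toFun x :=
    { toFun := fun y => x ⬝ᵥ (B.map (Int.cast : ℤ → ZMod (2 ^ k))).mulVec y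
      map_zero' := by rw [mulVec_zero, dotProduct_zero]
      map_add' := fun y y' => by rw [mulVec_add, dotProduct_add] }
  map_zero' := by
    ext y
    simp
  map_add' x x' := by
    ext y
    simp [add_dotProduct]

theorem bmap_red (k r : ℕ) (B : Matrix (Fin r) (Fin r) ℤ) (u v : Fin r → ℤ) :
    bmap k r B (red k r u) (red k r v) = ((u ⬝ᵥ B.mulVec v : ℤ) : ZMod (2 ^ k)) := red_dot B u v

theorem bmap_symm (k r : ℕ) (B : Matrix (Fin r) (Fin r) ℤ) (hB : ∀ i j, B i j = B j i)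
    (x y : Gp k r) : bmap k r B x y = bmap k r B y x := by
  have h1 : (B.map (Int.cast : ℤ → ZMod (2 ^ k)))ᵀ = B.map (Int.cast : ℤ → ZMod (2 ^ k)) := by
    ext i j
    simp [hB i j]
  change x ⬝ᵥ (B.map (Int.cast : ℤ → ZMod (2 ^ k))).mulVec y
    = y ⬝ᵥ (B.map (Int.cast : ℤ → ZMod (2 ^ k))).mulVec x
  rw [dotProduct_mulVec, ← mulVec_transpose, h1, dotProduct_comm]

/-- **Core.** -/
theorem core (k : ℕ) {ε C : ℝ} (hε : 0 < ε) (hC : 0 < C) : ∃ m0 : ℕ, ∀ m : ℕ, m0 ≤ m →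
    ∀ r : ℕ, r ≤ m → ∀ (α : Type) [DecidableEq α] (Y1 : Finset α), Y1.Nonempty →
      ∀ (c : α → Fin r → ℤ) (B : Matrix (Fin r) (Fin r) ℤ), (∀ i j, B i j = B j i) →
      ∀ (E : Type) [NormedAddCommGroup E] [InnerProductSpace ℝ E]
      [FiniteDimensional ℝ E] (w : α → E) (J : E → E), (∀ x, ‖J x‖ ≤ ‖x‖) →
      (∀ y ∈ Y1, ‖w y‖ ^ 2 ≤ C * Real.sqrt m) →
      (∀ a ∈ Y1, ∀ b ∈ Y1, ∀ c' ∈ Y1, ∀ d ∈ Y1,
        (((c a - c b) ⬝ᵥ B.mulVec (c c' - c d) : ℤ) : ℝ) = ⟪w a - w b, J (w c' - w d)⟫_ℝ) →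
      (∀ y ∈ Y1, c y ⬝ᵥ B.mulVec (c y) = 0) →
      ∃ Z ⊆ Y1, (2 : ℝ) ^ (-(ε * m)) * Y1.card ≤ Z.card ∧
        ∀ u ∈ Z, ∀ v ∈ Z, ((2 : ℤ) ^ k) ∣ 2 * (c u ⬝ᵥ B.mulVec (c v)) := by
  classical
  obtain ⟨e, he, hirr⟩ := irr k ε hε
  set c0 : ℝ := e * Real.log 2 / (4 * C) with hc0
  have hlog2 : 0 < Real.log 2 := Real.log_pos (by norm_num)
  have hc0' : 0 < c0 := by positivity
  obtain ⟨K, hK⟩ := exists_nat_ge (32 * π ^ 2 * C / c0)
  have hK4 : 32 * π ^ 2 * C / c0 ≤ 4 ^ (K + k) := by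
    refine hK.trans ?_
    have h1 : (K : ℝ) ≤ 4 ^ K := by
      have := Nat.lt_pow_self (n := K) (show 1 < 4 by norm_num)
      exact_mod_cast this.le
    refine h1.trans ?_
    exact pow_le_pow_right₀ (by norm_num) (Nat.le_add_right _ _)
  obtain ⟨m1, hm1⟩ := two_sets (K + k) (δ := e / 4) (by positivity)
  refine ⟨max m1 1, fun m hm r hr α _ Y1 hne c B hB E _ _ _ w J hJ hw hβ h0 => ?_⟩
  have hm1' : m1 ≤ m := (le_max_left _ _).trans hm
  have hmpos : 0 < m := lt_of_lt_of_le one_pos ((le_max_right _ _).trans hm)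
  have hmR : (0 : ℝ) < m := by exact_mod_cast hmpos
  have hsm : 0 < Real.sqrt m := Real.sqrt_pos.2 hmR
  have : NeZero (2 ^ k) := ⟨by positivity⟩
  have hcardG : (Nat.card (Gp k r) : ℝ) ≤ 2 ^ ((k : ℝ) * (m : ℝ)) := by
    have h4 : Nat.card (Gp k r) = (2 ^ k) ^ r := by
      rw [Nat.card_eq_fintype_card]
      simp [Gp, ZMod.card]
    rw [h4, ← pow_mul]
    push_cast
    rw [← Real.rpow_natCast]
    refine Real.rpow_le_rpow_of_exponent_le (by norm_num) ?_
    push_cast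
    exact mul_le_mul_of_nonneg_left (by exact_mod_cast hr) (Nat.cast_nonneg _)
  obtain ⟨Y2, hsub, hne2, hY2⟩ := hirr m hmR (Gp k r) hcardG (ZMod (2 ^ k)) (bmap k r B)
    (bmap_symm k r B hB) α (fun y => red k r (c y)) Y1 hne (fun y hy => by
      rw [bmap_red, h0 y hy, Int.cast_zero])
  have : Nonempty Y2 := ⟨⟨hne2.choose, hne2.choose_spec⟩⟩
  have hMA : 32 * π ^ 2 * (C * Real.sqrt m) / (c0 * Real.sqrt m) ≤ 4 ^ (K + k) := by
    refine le_trans (le_of_eq ?_) hK4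
    have := hc0'.ne'
    field_simp
  obtain ⟨Z', Z'', h1, h2, h3⟩ := hm1 m hm1' r hr Y2 (fun y => c y) B E (fun y => w y) J hJ
    (C * Real.sqrt m) (c0 * Real.sqrt m) (by positivity) (fun y => hw y (hsub y.2))
    (fun a b c' d => hβ a (hsub a.2) b (hsub b.2) c' (hsub c'.2) d (hsub d.2)) hMA
  have hloss : (2 : ℝ) ^ (-(e * m)) * (Y2.card : ℝ)
      ≤ (2 : ℝ) ^ (-(e / 4 * m)) * Real.exp (-(c0 * Real.sqrt m * (C * Real.sqrt m)))
        * Fintype.card Y2 := by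
    rw [Fintype.card_coe]
    refine mul_le_mul_of_nonneg_right ?_ (Nat.cast_nonneg _)
    have h4 : c0 * Real.sqrt m * (C * Real.sqrt m) = Real.log 2 * (e / 4 * m) := by
      have h5 : Real.sqrt m * Real.sqrt m = m := Real.mul_self_sqrt hmR.le
      calc c0 * Real.sqrt m * (C * Real.sqrt m) = c0 * C * (Real.sqrt m * Real.sqrt m) := by ring
        _ = Real.log 2 * (e / 4 * m) := by
          rw [h5, hc0]
          field_simp
    have h5 : Real.exp (-(c0 * Real.sqrt m * (C * Real.sqrt m))) = (2 : ℝ) ^ (-(e / 4 * m)) := by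
      rw [h4, Real.rpow_def_of_pos (by norm_num)]
      congr 1
      ring
    rw [h5, ← Real.rpow_add (by norm_num)]
    refine Real.rpow_le_rpow_of_exponent_le (by norm_num) ?_
    have : 0 ≤ e * m := by positivity
    linarith
  have hcard : ∀ Z : Finset Y2, (Z.map (Function.Embedding.subtype _)).card = Z.card :=
    fun Z => Finset.card_map _
  obtain ⟨Z, hZ1, hZ2, hZ3⟩ := hY2 (Z'.map (Function.Embedding.subtype _))
    (Z''.map (Function.Embedding.subtype _))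
    (fun x hx => by
      obtain ⟨y, _, rfl⟩ := Finset.mem_map.1 hx
      exact y.2)
    (fun x hx => by
      obtain ⟨y, _, rfl⟩ := Finset.mem_map.1 hx
      exact y.2)
    (by rw [hcard]; exact hloss.trans h1) (by rw [hcard]; exact hloss.trans h2)
    (fun u hu u' hu' v hv v' hv' => by
      obtain ⟨u, hu1, rfl⟩ := Finset.mem_map.1 hu
      obtain ⟨u', hu1', rfl⟩ := Finset.mem_map.1 hu'
      obtain ⟨v, hv1, rfl⟩ := Finset.mem_map.1 hv
      obtain ⟨v', hv1', rfl⟩ := Finset.mem_map.1 hv'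
      have h4 := h3 u hu1 u' hu1' v hv1 v' hv1'
      simp only [Function.Embedding.coe_subtype]
      rw [← red_sub, ← red_sub, bmap_red, ZMod.intCast_zmod_eq_zero_iff_dvd]
      refine dvd_trans ?_ h4
      push_cast
      exact pow_dvd_pow _ (Nat.le_add_left _ _))
  refine ⟨Z, hZ1.trans hsub, hZ2, fun u hu v hv => ?_⟩
  have h4 := hZ3 u hu v hv
  rw [bmap_red, nsmul_eq_mul] at h4
  have h5 : ((2 * (c u ⬝ᵥ B.mulVec (c v)) : ℤ) : ZMod (2 ^ k)) = 0 := by
    push_cast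
    push_cast at h4
    exact h4
  rw [ZMod.intCast_zmod_eq_zero_iff_dvd] at h5
  exact_mod_cast h5

end Pool.Agent.Lib.EndG
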