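import Mathlib
import Pool.Agent.Lib.EndG.Cells

/-!
# The Euclidean model of the form of a symmetric matrix, and cells
-/

set_option autoImplicit false

open Finset Real Matrix
open scoped InnerProductSpace

namespace Pool.Agent.Lib.EndG

section spec

variable {ι : Type*} [Fintype ι] [DecidableEq ι] {A : Matrix ι ι ℝ} (hA : A.IsHermitian)

/-- coordinates in the eigenbasis -/
noncomputable def eco (i : ι) (z : ι → ℝ) : ℝ := (fun k => hA.eigenvectorBasis i k) ⬝ᵥ z

theorem eco_sub (i : ι) (z z' : ι → ℝ) : eco hA i (z - z') = eco hA i z - eco hA i z' := by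
  unfold eco
  rw [dotProduct_sub]

theorem sum_eco_mul (x y : ι → ℝ) : ∑ i, eco hA i x * eco hA i y = x ⬝ᵥ y := by
  have h1 := hA.eigenvectorBasis.sum_inner_mul_inner (WithLp.toLp 2 x) (WithLp.toLp 2 y)
  have h2 : ∀ i, ⟪(WithLp.toLp 2 x : EuclideanSpace ℝ ι), hA.eigenvectorBasis i⟫_ℝ = eco hA i x := by
    intro i
    rw [EuclideanSpace.inner_eq_star_dotProduct]
    simp [eco]
  have h3 : ∀ i, ⟪hA.eigenvectorBasis i, (WithLp.toLp 2 y : EuclideanSpace ℝ ι)⟫_ℝ = eco hA i y := by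
    intro i
    rw [real_inner_comm, EuclideanSpace.inner_eq_star_dotProduct]
    simp [eco]
  simp only [h2, h3] at h1
  rw [h1, EuclideanSpace.inner_eq_star_dotProduct]
  simp [dotProduct_comm]

theorem sum_eco_sq (x : ι → ℝ) : ∑ i, eco hA i x ^ 2 = x ⬝ᵥ x := by
  rw [← sum_eco_mul hA]
  exact Finset.sum_congr rfl (fun i _ => sq _)

theorem eco_mulVec (i : ι) (z : ι → ℝ) : eco hA i (A.mulVec z) = hA.eigenvalues i * eco hA i z := by
  unfold eco
  rw [dotProduct_mulVec, ← mulVec_transpose]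
  have h1 : Aᵀ = A := by
    have := hA.eq
    rwa [conjTranspose_eq_transpose_of_trivial] at this
  rw [h1]
  have h2 := hA.mulVec_eigenvectorBasis i
  have h3 : A.mulVec (fun k => hA.eigenvectorBasis i k)
      = hA.eigenvalues i • (fun k => hA.eigenvectorBasis i k) := h2
  rw [h3, smul_dotProduct, smul_eq_mul]

/-- the Euclidean vector of `z`. -/
noncomputable def wv (z : ι → ℝ) : EuclideanSpace ℝ ι :=
  WithLp.toLp 2 (fun i => Real.sqrt |hA.eigenvalues i| * eco hA i z)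

/-- the signs of the eigenvalues -/
noncomputable def Jv (v : EuclideanSpace ℝ ι) : EuclideanSpace ℝ ι :=
  WithLp.toLp 2 (fun i => SignType.sign (hA.eigenvalues i) * v i)

theorem norm_Jv_le (v : EuclideanSpace ℝ ι) : ‖Jv hA v‖ ≤ ‖v‖ := by
  rw [EuclideanSpace.norm_eq, EuclideanSpace.norm_eq]
  refine Real.sqrt_le_sqrt (Finset.sum_le_sum (fun i _ => ?_))
  simp only [Jv, Real.norm_eq_abs, sq_abs, mul_pow]
  have h1 : (((SignType.sign (hA.eigenvalues i) : SignType) : ℝ)) ^ 2 ≤ 1 := by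
    rcases lt_trichotomy (hA.eigenvalues i) 0 with h | h | h
    · rw [sign_neg h]; simp
    · rw [h]; simp
    · rw [sign_pos h]; simp
  nlinarith [sq_nonneg (v i)]

theorem wv_sub (z z' : ι → ℝ) : wv hA (z - z') = wv hA z - wv hA z' := by
  ext i
  simp only [wv, eco_sub, PiLp.sub_apply]
  ring

theorem inner_wv (z z' : ι → ℝ) : ⟪wv hA z, Jv hA (wv hA z')⟫_ℝ = (A.mulVec z) ⬝ᵥ z' := by
  rw [← sum_eco_mul hA, PiLp.inner_apply]
  refine Finset.sum_congr rfl (fun i _ => ?_)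
  rw [eco_mulVec]
  simp only [wv, Jv, RCLike.inner_apply, conj_trivial]
  have h1 : Real.sqrt |hA.eigenvalues i| * Real.sqrt |hA.eigenvalues i| = |hA.eigenvalues i| :=
    Real.mul_self_sqrt (abs_nonneg _)
  have h2 : ((SignType.sign (hA.eigenvalues i) : SignType) : ℝ) * |hA.eigenvalues i|
      = hA.eigenvalues i := sign_mul_abs _
  calc ((SignType.sign (hA.eigenvalues i) : SignType) : ℝ)
        * (Real.sqrt |hA.eigenvalues i| * eco hA i z')
        * (Real.sqrt |hA.eigenvalues i| * eco hA i z)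
      = (((SignType.sign (hA.eigenvalues i) : SignType) : ℝ)
        * (Real.sqrt |hA.eigenvalues i| * Real.sqrt |hA.eigenvalues i|))
        * (eco hA i z * eco hA i z') := by ring
    _ = _ := by rw [h1, h2]; ring

theorem norm_wv_sq (z : ι → ℝ) : ‖wv hA z‖ ^ 2 = ∑ i, |hA.eigenvalues i| * eco hA i z ^ 2 := by
  rw [EuclideanSpace.norm_sq_eq]
  refine Finset.sum_congr rfl (fun i _ => ?_)
  simp only [wv, Real.norm_eq_abs, sq_abs, mul_pow]
  rw [Real.sq_sqrt (abs_nonneg _)]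

/-- the block of eigenvalues of size about `S / 2 ^ j` -/
noncomputable def blk (S : ℝ) (j : ℕ) : Finset ι :=
  Finset.univ.filter (fun i => S / 2 ^ (j + 1) < |hA.eigenvalues i| ∧ |hA.eigenvalues i| ≤ S / 2 ^ j)

/-- splitting of `‖w‖²` -/
theorem norm_wv_sq_le (z : ι → ℝ) {S : ℝ} (hS : 0 < S) (j0 J : ℕ) :
    ‖wv hA z‖ ^ 2 ≤ 2 ^ j0 / S * ((A.mulVec z) ⬝ᵥ (A.mulVec z)) + S / 2 ^ J * (z ⬝ᵥ z)
      + ∑ j ∈ Finset.Ico j0 J, 2 ^ (j + 1) / S * ∑ i ∈ blk hA S j, eco hA i (A.mulVec z) ^ 2 := by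
  classical
  rw [norm_wv_sq, ← sum_eco_sq hA (A.mulVec z), ← sum_eco_sq hA z, Finset.mul_sum, Finset.mul_sum]
  have h0 : ∑ j ∈ Finset.Ico j0 J, 2 ^ (j + 1) / S * ∑ i ∈ blk hA S j, eco hA i (A.mulVec z) ^ 2
      = ∑ i, ∑ j ∈ Finset.Ico j0 J, if i ∈ blk hA S j then
          2 ^ (j + 1) / S * eco hA i (A.mulVec z) ^ 2 else 0 := by
    rw [Finset.sum_comm]
    refine Finset.sum_congr rfl (fun j _ => ?_)
    rw [Finset.mul_sum, ← Finset.sum_filter]
    refine Finset.sum_congr ?_ (fun _ _ => rfl)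
    ext i
    simp
  rw [h0, ← Finset.sum_add_distrib, ← Finset.sum_add_distrib]
  refine Finset.sum_le_sum (fun i _ => ?_)
  have hJ0 : 0 ≤ ∑ j ∈ Finset.Ico j0 J, (if i ∈ blk hA S j then
          2 ^ (j + 1) / S * eco hA i (A.mulVec z) ^ 2 else 0) :=
    Finset.sum_nonneg (fun j _ => by split_ifs <;> positivity)
  have h1 : 0 ≤ 2 ^ j0 / S * eco hA i (A.mulVec z) ^ 2 := by positivity
  have h2 : 0 ≤ S / 2 ^ J * eco hA i z ^ 2 := by positivity
  rcases lt_or_ge (S / 2 ^ j0) |hA.eigenvalues i| with h3 | h3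
  · -- large eigenvalue
    have h4 : |hA.eigenvalues i| * eco hA i z ^ 2 ≤ 2 ^ j0 / S * eco hA i (A.mulVec z) ^ 2 := by
      rw [eco_mulVec, mul_pow]
      have h5 : 1 ≤ 2 ^ j0 / S * |hA.eigenvalues i| := by
        rw [div_lt_iff₀ (by positivity)] at h3
        rw [div_mul_eq_mul_div, le_div_iff₀ hS]
        linarith
      have h6 : hA.eigenvalues i ^ 2 = |hA.eigenvalues i| * |hA.eigenvalues i| := by
        rw [← sq_abs, sq]
      rw [h6]
      calc |hA.eigenvalues i| * eco hA i z ^ 2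
          = 1 * (|hA.eigenvalues i| * eco hA i z ^ 2) := by ring
        _ ≤ (2 ^ j0 / S * |hA.eigenvalues i|) * (|hA.eigenvalues i| * eco hA i z ^ 2) :=
            mul_le_mul_of_nonneg_right h5 (by positivity)
        _ = _ := by ring
    linarith
  rcases le_or_gt |hA.eigenvalues i| (S / 2 ^ J) with h4 | h4
  · have h5 : |hA.eigenvalues i| * eco hA i z ^ 2 ≤ S / 2 ^ J * eco hA i z ^ 2 :=
      mul_le_mul_of_nonneg_right h4 (by positivity)
    linarith
  · -- find the block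
    have hex : ∃ j, S / 2 ^ (j + 1) < |hA.eigenvalues i| := by
      refine ⟨J, lt_of_le_of_lt ?_ h4⟩
      rw [pow_succ]
      exact div_le_div_of_nonneg_left hS.le (by positivity) (by nlinarith [show (0:ℝ) < 2 ^ J by positivity])
    have hj := Nat.find_spec hex
    set j := Nat.find hex with hjdef
    have hj1 : j0 ≤ j := by
      by_contra hcon
      push Not at hcon
      have h5 : S / 2 ^ j0 ≤ S / 2 ^ (j + 1) :=
        div_le_div_of_nonneg_left hS.le (by positivity)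
          (pow_le_pow_right₀ (by norm_num) (by omega))
      linarith
    have hj2 : |hA.eigenvalues i| ≤ S / 2 ^ j := by
      rcases Nat.eq_zero_or_pos j with h5 | h5
      · have h6 : j0 = 0 := by omega
        rw [h5]
        rwa [h6] at h3
      · have h6 := Nat.find_min hex (m := j - 1) (by omega)
        push Not at h6
        rwa [Nat.sub_add_cancel h5] at h6
    have hj3 : j < J := by
      by_contra hcon
      push Not at hcon
      have h5 : S / 2 ^ j ≤ S / 2 ^ J :=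
        div_le_div_of_nonneg_left hS.le (by positivity)
          (pow_le_pow_right₀ (by norm_num) hcon)
      linarith
    have hmem : i ∈ blk hA S j := by
      rw [blk, Finset.mem_filter]
      exact ⟨Finset.mem_univ _, hj, hj2⟩
    have h5 : |hA.eigenvalues i| * eco hA i z ^ 2
        ≤ 2 ^ (j + 1) / S * eco hA i (A.mulVec z) ^ 2 := by
      rw [eco_mulVec, mul_pow]
      have h5 : 1 ≤ 2 ^ (j + 1) / S * |hA.eigenvalues i| := by
        rw [div_lt_iff₀ (by positivity)] at hj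
        rw [div_mul_eq_mul_div, le_div_iff₀ hS]
        linarith
      have h6 : hA.eigenvalues i ^ 2 = |hA.eigenvalues i| * |hA.eigenvalues i| := by
        rw [← sq_abs, sq]
      rw [h6]
      calc |hA.eigenvalues i| * eco hA i z ^ 2
          = 1 * (|hA.eigenvalues i| * eco hA i z ^ 2) := by ring
        _ ≤ (2 ^ (j + 1) / S * |hA.eigenvalues i|) * (|hA.eigenvalues i| * eco hA i z ^ 2) :=
            mul_le_mul_of_nonneg_right h5 (by positivity)
        _ = _ := by ring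
    have h6 : 2 ^ (j + 1) / S * eco hA i (A.mulVec z) ^ 2
        ≤ ∑ j ∈ Finset.Ico j0 J, (if i ∈ blk hA S j then
          2 ^ (j + 1) / S * eco hA i (A.mulVec z) ^ 2 else 0) := by
      have h7 := Finset.single_le_sum (f := fun j => if i ∈ blk hA S j then
          2 ^ (j + 1) / S * eco hA i (A.mulVec z) ^ 2 else 0)
        (fun j _ => by split_ifs <;> positivity) (Finset.mem_Ico.2 ⟨hj1, hj3⟩)
      simp only [if_pos hmem] at h7
      exact h7
    linarith

/-- **Cells.** -/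
theorem cells {α : Type*} (Y : Finset α) (hY : Y.Nonempty) (z : α → ι → ℝ) {S B : ℝ}
    (hS : 0 < S) (j0 J : ℕ)
    (hx : ∀ y ∈ Y, (A.mulVec (z y)) ⬝ᵥ (A.mulVec (z y)) ≤ S ^ 2)
    (hxx : ∀ y ∈ Y, ∀ y' ∈ Y, (A.mulVec (z y - z y')) ⬝ᵥ (A.mulVec (z y - z y')) ≤ S ^ 2)
    (hz : ∀ y ∈ Y, ∀ y' ∈ Y, (z y - z y') ⬝ᵥ (z y - z y') ≤ B) (hB : B ≤ 2 ^ J) :
    ∃ Y' ⊆ Y, Y'.Nonempty ∧
      (Y.card : ℝ) ≤ 2 ^ (∑ j ∈ Finset.Ico j0 J, (j + 5) * (blk hA S j).card) * Y'.card ∧
      ∀ y ∈ Y', ∀ y' ∈ Y', ‖wv hA (z y) - wv hA (z y')‖ ^ 2 ≤ (2 ^ j0 + 5) * S := by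
  classical
  obtain ⟨Y', hsub, hne, hcard, hcell⟩ := many_blocks Y hY (fun j => blk hA S j)
    (fun y i => eco hA i (A.mulVec (z y))) S (fun j => S / 2 ^ j) hS (fun j => by positivity)
    (fun y hy j => by
      refine le_trans (Finset.sum_le_univ_sum_of_nonneg (fun i => sq_nonneg _)) ?_
      rw [sum_eco_sq]
      exact hx y hy) (Finset.Ico j0 J)
  refine ⟨Y', hsub, hne, hcard.trans ?_, ?_⟩
  · refine mul_le_mul_of_nonneg_right ?_ (Nat.cast_nonneg _)
    rw [← Finset.prod_pow_eq_pow_sum]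
    refine Finset.prod_le_prod (fun j _ => by positivity) (fun j _ => ?_)
    rw [pow_mul]
    refine pow_le_pow_left₀ (by positivity) ?_ _
    have h1 : S / (S / 2 ^ j) = 2 ^ j := by field_simp
    rw [h1, pow_add]
    have h2 : (1 : ℝ) ≤ 2 ^ j := one_le_pow₀ (by norm_num)
    norm_num
    linarith
  · intro y hy y' hy'
    rw [← wv_sub]
    refine (norm_wv_sq_le hA (z y - z y') hS j0 J).trans ?_
    have h1 : 2 ^ j0 / S * ((A.mulVec (z y - z y')) ⬝ᵥ (A.mulVec (z y - z y'))) ≤ 2 ^ j0 * S := by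
      calc 2 ^ j0 / S * ((A.mulVec (z y - z y')) ⬝ᵥ (A.mulVec (z y - z y')))
          ≤ 2 ^ j0 / S * S ^ 2 :=
            mul_le_mul_of_nonneg_left (hxx y (hsub hy) y' (hsub hy')) (by positivity)
        _ = 2 ^ j0 * S := by field_simp
    have h2 : S / 2 ^ J * ((z y - z y') ⬝ᵥ (z y - z y')) ≤ S := by
      calc S / 2 ^ J * ((z y - z y') ⬝ᵥ (z y - z y')) ≤ S / 2 ^ J * 2 ^ J :=
            mul_le_mul_of_nonneg_left ((hz y (hsub hy) y' (hsub hy')).trans hB) (by positivity)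
        _ = S := by field_simp
    have h3 : ∑ j ∈ Finset.Ico j0 J, 2 ^ (j + 1) / S
        * ∑ i ∈ blk hA S j, eco hA i (A.mulVec (z y - z y')) ^ 2 ≤ 4 * S := by
      have h4 : ∀ j ∈ Finset.Ico j0 J, 2 ^ (j + 1) / S
        * ∑ i ∈ blk hA S j, eco hA i (A.mulVec (z y - z y')) ^ 2 ≤ 2 * S * (1 / 2) ^ j := by
        intro j hj
        have h5 := hcell j hj y hy y' hy'
        have h6 : ∑ i ∈ blk hA S j, eco hA i (A.mulVec (z y - z y')) ^ 2
            = ∑ i ∈ blk hA S j, (eco hA i (A.mulVec (z y)) - eco hA i (A.mulVec (z y'))) ^ 2 := by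
          refine Finset.sum_congr rfl (fun i _ => ?_)
          rw [mulVec_sub, eco_sub]
        rw [h6]
        calc 2 ^ (j + 1) / S * ∑ i ∈ blk hA S j,
              (eco hA i (A.mulVec (z y)) - eco hA i (A.mulVec (z y'))) ^ 2
            ≤ 2 ^ (j + 1) / S * (S / 2 ^ j) ^ 2 :=
              mul_le_mul_of_nonneg_left h5 (by positivity)
          _ = 2 * S * (1 / 2) ^ j := by
              rw [pow_succ, one_div, inv_pow]
              field_simp
      refine (Finset.sum_le_sum h4).trans ?_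
      rw [← Finset.mul_sum]
      have h7 : ∑ j ∈ Finset.Ico j0 J, (1 / 2 : ℝ) ^ j ≤ 2 := by
        refine le_trans (Finset.sum_le_sum_of_subset_of_nonneg (t := Finset.range J)
          (fun j hj => Finset.mem_range.2 (Finset.mem_Ico.1 hj).2)
          (fun _ _ _ => by positivity)) ?_
        rw [geom_sum_eq (by norm_num)]
        have h8 : (0 : ℝ) ≤ (1 / 2) ^ J := by positivity
        have h9 : ((1 / 2 : ℝ) ^ J - 1) / (1 / 2 - 1) = 2 * (1 - (1 / 2) ^ J) := by ring
        rw [h9]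
        linarith
      nlinarith
    linarith

end spec

end Pool.Agent.Lib.EndG
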