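import Mathlib
import Pool.Agent.Lib.EndG.Core
import Pool.Agent.Lib.EndG.Spec
import Pool.Agent.Lib.SpG.Main
import Pool.Agent.Lib.S1.Frame

/-!
# The end game of route P

Outside a fraction `8 ^ (-m)` of the graphs every integral bounded isotropic clique contains a
subset of relative density `2 ^ (-ε m)` on which the form vanishes mod `2 ^ k`.
-/

set_option autoImplicit false

open Finset Real Matrix Filter
open scoped InnerProductSpace Classical

namespace Pool.Agent.Lib.EndG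

/-! ### Eigenvalue blocks and subspaces -/

section eig

variable {ι : Type*} [Fintype ι] [DecidableEq ι] {A : Matrix ι ι ℝ} (hA : A.IsHermitian)

/-- span of eigenvectors -/
noncomputable def espan (T : Finset ι) : Submodule ℝ (EuclideanSpace ℝ ι) :=
  Submodule.span ℝ (Set.range fun i : T => hA.eigenvectorBasis i)

theorem finrank_espan (T : Finset ι) : Module.finrank ℝ (espan hA T) = T.card := by
  have h1 : LinearIndependent ℝ (fun i : T => hA.eigenvectorBasis i) :=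
    (hA.eigenvectorBasis.orthonormal.comp (fun i : T => (i : ι))
      Subtype.val_injective).linearIndependent
  have h2 := finrank_span_eq_card h1
  rw [Fintype.card_coe] at h2
  exact h2

theorem eco_espan (T : Finset ι) (w : EuclideanSpace ℝ ι) (hw : w ∈ espan hA T) (i : ι)
    (hi : i ∉ T) : eco hA i (fun k => w k) = 0 := by
  unfold espan at hw
  induction hw using Submodule.span_induction with
  | mem w hw =>
    obtain ⟨j, rfl⟩ := hw
    have h1 : ⟪hA.eigenvectorBasis i, hA.eigenvectorBasis (j : ι)⟫_ℝ = 0 :=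
      hA.eigenvectorBasis.orthonormal.2 (fun h => hi (h ▸ j.2))
    rw [real_inner_comm, EuclideanSpace.inner_eq_star_dotProduct] at h1
    simpa [eco] using h1
  | zero => simp [eco]
  | add x y _ _ h1 h2 =>
    have : (fun k => (x + y) k) = (fun k => x k) + (fun k => y k) := rfl
    rw [this]
    unfold eco at h1 h2 ⊢
    rw [dotProduct_add, h1, h2, add_zero]
  | smul a x _ h1 =>
    have : (fun k => (a • x) k) = a • (fun k => x k) := rfl
    rw [this]
    unfold eco at h1 ⊢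
    rw [dotProduct_smul, h1, smul_zero]

theorem norm_toLin_le (T : Finset ι) {s : ℝ} (hs : 0 ≤ s) (hT : ∀ i ∈ T, |hA.eigenvalues i| ≤ s)
    (w : EuclideanSpace ℝ ι) (hw : w ∈ espan hA T) :
    ‖toEuclideanLin A w‖ ≤ s * ‖w‖ := by
  have h1 : ∀ v : EuclideanSpace ℝ ι, ‖v‖ ^ 2 = ∑ i, eco hA i (fun k => v k) ^ 2 := by
    intro v
    rw [sum_eco_sq, EuclideanSpace.norm_sq_eq]
    simp only [dotProduct, Real.norm_eq_abs, sq_abs]
    exact Finset.sum_congr rfl (fun i _ => sq _)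
  have h2 : (fun k => (toEuclideanLin A w) k) = A.mulVec (fun k => w k) := rfl
  have h3 : ‖toEuclideanLin A w‖ ^ 2 ≤ (s * ‖w‖) ^ 2 := by
    rw [mul_pow, h1, h1, h2, Finset.mul_sum]
    refine Finset.sum_le_sum (fun i _ => ?_)
    rw [eco_mulVec, mul_pow]
    by_cases hi : i ∈ T
    · refine mul_le_mul_of_nonneg_right ?_ (sq_nonneg _)
      rw [← sq_abs]
      exact pow_le_pow_left₀ (abs_nonneg _) (hT i hi) 2
    · rw [eco_espan hA T w hw i hi]
      simp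
  exact (pow_le_pow_iff_left₀ (norm_nonneg _) (by positivity) two_ne_zero).1 h3

end eig

/-- the good event of the spectral count -/
def SGood {m : ℕ} (C : ℝ) (A : Matrix (Fin m) (Fin m) ℝ) : Prop :=
  ∀ (W : Submodule ℝ (EuclideanSpace ℝ (Fin m))) (s : ℝ), 0 ≤ s →
    (∀ w ∈ W, ‖toEuclideanLin A w‖ ≤ s * ‖w‖) →
    (Module.finrank ℝ W : ℝ) < C * ((s ^ 2 * (m : ℝ) ^ 2) ^ (1 / 3 : ℝ) + √m)

theorem card_blk_le {m : ℕ} {C : ℝ} (hC : 0 < C) {A : Matrix (Fin m) (Fin m) ℝ}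
    (hA : A.IsHermitian) (hG : SGood C A) (j : ℕ) :
    ((blk hA (√m) j).card : ℝ) ≤ C * ((2 / 3) ^ j * m + √m) := by
  have h1 := hG (espan hA (blk hA (√m) j)) (√m / 2 ^ j) (by positivity)
    (norm_toLin_le hA _ (by positivity) (fun i hi => (Finset.mem_filter.1 hi).2.2))
  rw [finrank_espan] at h1
  refine h1.le.trans (mul_le_mul_of_nonneg_left ?_ hC.le)
  refine add_le_add ?_ le_rfl
  have hm : (0 : ℝ) ≤ m := Nat.cast_nonneg m
  have h2 : (√(m : ℝ) / 2 ^ j) ^ 2 * (m : ℝ) ^ 2 ≤ ((2 / 3) ^ j * m) ^ 3 := by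
    rw [div_pow, Real.sq_sqrt hm]
    have h3 : (m : ℝ) / (2 ^ j) ^ 2 * (m : ℝ) ^ 2 = (1 / 4) ^ j * (m : ℝ) ^ 3 := by
      rw [one_div, inv_pow, ← pow_mul, mul_comm j 2, pow_mul]
      norm_num
      field_simp
    have h4 : ((2 / 3 : ℝ) ^ j * m) ^ 3 = (8 / 27) ^ j * (m : ℝ) ^ 3 := by
      rw [mul_pow, ← pow_mul, mul_comm j 3, pow_mul]
      norm_num
    rw [h3, h4]
    refine mul_le_mul_of_nonneg_right ?_ (by positivity)
    exact pow_le_pow_left₀ (by norm_num) (by norm_num) j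
  calc ((√(m : ℝ) / 2 ^ j) ^ 2 * (m : ℝ) ^ 2) ^ (1 / 3 : ℝ)
      ≤ (((2 / 3) ^ j * m) ^ 3) ^ (1 / 3 : ℝ) :=
        Real.rpow_le_rpow (by positivity) h2 (by norm_num)
    _ = (2 / 3) ^ j * m := by
        rw [← Real.rpow_natCast, ← Real.rpow_mul (by positivity)]
        norm_num

theorem sum_tail_le (j0 J : ℕ) :
    ∑ j ∈ Finset.Ico j0 J, ((j : ℝ) + 5) * (2 / 3) ^ j ≤ 120 * (5 / 6) ^ j0 := by
  have h1 : ∀ j ∈ Finset.Ico j0 J, ((j : ℝ) + 5) * (2 / 3) ^ j ≤ 20 * (5 / 6) ^ j := by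
    intro j _
    have h2 : 1 + (j : ℝ) * (1 / 4) ≤ (1 + 1 / 4) ^ j :=
      one_add_mul_le_pow (by norm_num) j
    have h3 : (j : ℝ) + 5 ≤ 20 * (5 / 4) ^ j := by
      have h4 : (1 + 1 / 4 : ℝ) = 5 / 4 := by norm_num
      rw [h4] at h2
      have : (0 : ℝ) ≤ j := Nat.cast_nonneg j
      linarith
    calc ((j : ℝ) + 5) * (2 / 3) ^ j ≤ (20 * (5 / 4) ^ j) * (2 / 3) ^ j :=
          mul_le_mul_of_nonneg_right h3 (by positivity)
      _ = 20 * (5 / 6) ^ j := by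
          rw [mul_assoc, ← mul_pow]
          norm_num
  refine (Finset.sum_le_sum h1).trans ?_
  rw [← Finset.mul_sum]
  have h2 : ∑ j ∈ Finset.Ico j0 J, (5 / 6 : ℝ) ^ j ≤ 6 * (5 / 6) ^ j0 := by
    rcases le_or_gt j0 J with h | h
    · rw [geom_sum_Ico (by norm_num) h]
      have h3 : (0 : ℝ) ≤ (5 / 6) ^ J := by positivity
      have h4 : ((5 / 6 : ℝ) ^ J - (5 / 6) ^ j0) / (5 / 6 - 1)
          = 6 * ((5 / 6) ^ j0 - (5 / 6) ^ J) := by ring
      rw [h4]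
      linarith
    · rw [Finset.Ico_eq_empty (by omega), Finset.sum_empty]
      positivity
  linarith

/-- number of scales -/
def scales (C0 m : ℕ) : ℕ := (2 * C0 + 1) * (Nat.log 2 m + 1) + 2

theorem le_two_pow_scales (C0 m : ℕ) :
    (4 : ℝ) * (m : ℝ) ^ (2 * C0 + 1) ≤ 2 ^ scales C0 m := by
  have h1 : m < 2 ^ (Nat.log 2 m + 1) := Nat.lt_pow_succ_log_self (by norm_num) m
  have h2 : (m : ℝ) ≤ 2 ^ (Nat.log 2 m + 1) := by exact_mod_cast h1.le
  have h5 : (2 : ℝ) ^ scales C0 m = (2 ^ (Nat.log 2 m + 1)) ^ (2 * C0 + 1) * 4 := by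
    unfold scales
    rw [pow_add, ← pow_mul, mul_comm (2 * C0 + 1) (Nat.log 2 m + 1)]
    norm_num
  have h3 : (m : ℝ) ^ (2 * C0 + 1) ≤ (2 ^ (Nat.log 2 m + 1)) ^ (2 * C0 + 1) :=
    pow_le_pow_left₀ (Nat.cast_nonneg _) h2 _
  rw [h5]
  linarith

theorem eventually_small (C : ℝ) (C0 : ℕ) {δ : ℝ} (hδ : 0 < δ) :
    ∀ᶠ m : ℕ in atTop, C * √m * ((scales C0 m : ℝ) * (scales C0 m + 5)) ≤ δ * m := by
  -- `scales ≤ a * log m` for large `m`
  have h1 : ∀ᶠ m : ℕ in atTop, (scales C0 m : ℝ) + 5 ≤ (4 * C0 + 20) * (2 * Real.log m) := by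
    filter_upwards [eventually_ge_atTop 3] with m hm
    have hm3 : (3 : ℝ) ≤ m := by exact_mod_cast hm
    have h2 : 1 ≤ Real.log m := by
      rw [Real.le_log_iff_exp_le (by linarith)]
      have := Real.exp_one_lt_d9
      linarith
    have h3 : (Nat.log 2 m : ℝ) ≤ 2 * Real.log m := by
      have h4 : (Nat.log 2 m : ℝ) ≤ Real.logb 2 m := Real.natLog_le_logb m 2
      refine h4.trans ?_
      rw [Real.logb, div_le_iff₀ (Real.log_pos (by norm_num))]
      have h5 := Real.log_two_gt_d9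
      nlinarith
    unfold scales
    push_cast
    have h6 : ((2 : ℝ) * C0 + 1) * ((Nat.log 2 m : ℝ) + 1) ≤ (2 * C0 + 1) * (2 * Real.log m + 1) :=
      mul_le_mul_of_nonneg_left (by linarith) (by positivity)
    have h7 : (0 : ℝ) ≤ C0 := Nat.cast_nonneg _
    nlinarith
  have h2 : ∀ᶠ m : ℕ in atTop, |C| * (2 * (4 * C0 + 20)) ^ 2 * Real.log m ^ 2 ≤ δ * √m := by
    have h3 := (isLittleO_log_rpow_atTop (r := 1 / 4) (by norm_num)).bound
      (show (0 : ℝ) < √(δ / (|C| * (2 * (4 * C0 + 20)) ^ 2 + 1)) by positivity)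
    have h4 := tendsto_natCast_atTop_atTop (R := ℝ) |>.eventually h3
    filter_upwards [h4, eventually_ge_atTop 1] with m hm hm1
    have hm' : (1 : ℝ) ≤ m := by exact_mod_cast hm1
    rw [Real.norm_eq_abs, Real.norm_eq_abs, abs_of_nonneg (Real.log_nonneg hm'),
      abs_of_nonneg (show 0 ≤ (m : ℝ) ^ (1 / 4 : ℝ) by positivity)] at hm
    have h5 := pow_le_pow_left₀ (Real.log_nonneg hm') hm 2
    rw [mul_pow, Real.sq_sqrt (by positivity), ← Real.rpow_natCast ((m : ℝ) ^ (1 / 4 : ℝ)),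
      ← Real.rpow_mul (by positivity)] at h5
    have h6 : (m : ℝ) ^ ((1 / 4 : ℝ) * ((2 : ℕ) : ℝ)) = √m := by
      rw [Real.sqrt_eq_rpow]
      norm_num
    rw [h6] at h5
    set a : ℝ := |C| * (2 * (4 * C0 + 20)) ^ 2 with ha
    have ha0 : 0 ≤ a := by positivity
    calc a * Real.log m ^ 2 ≤ a * (δ / (a + 1) * √m) := mul_le_mul_of_nonneg_left h5 ha0
      _ = (a / (a + 1)) * (δ * √m) := by field_simp
      _ ≤ 1 * (δ * √m) := by
          refine mul_le_mul_of_nonneg_right ?_ (by positivity)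
          rw [div_le_one (by positivity)]
          linarith
      _ = δ * √m := one_mul _
  filter_upwards [h1, h2] with m hm1 hm2
  have h3 : (0 : ℝ) ≤ scales C0 m := Nat.cast_nonneg _
  have h4 : (scales C0 m : ℝ) * (scales C0 m + 5) ≤ ((4 * C0 + 20) * (2 * Real.log m)) ^ 2 := by
    rw [sq]
    exact mul_le_mul (by linarith) hm1 (by positivity) (by linarith)
  calc C * √m * ((scales C0 m : ℝ) * (scales C0 m + 5))
      ≤ |C| * √m * ((scales C0 m : ℝ) * (scales C0 m + 5)) := by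
        refine mul_le_mul_of_nonneg_right (mul_le_mul_of_nonneg_right (le_abs_self C)
          (by positivity)) (by positivity)
    _ ≤ |C| * √m * ((4 * C0 + 20) * (2 * Real.log m)) ^ 2 :=
        mul_le_mul_of_nonneg_left h4 (by positivity)
    _ = (|C| * (2 * (4 * C0 + 20)) ^ 2 * Real.log m ^ 2) * √m := by ring
    _ ≤ (δ * √m) * √m := mul_le_mul_of_nonneg_right hm2 (by positivity)
    _ = δ * m := by rw [mul_assoc, Real.mul_self_sqrt (Nat.cast_nonneg _)]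

/-- the total cost of the cells -/
theorem cost_le {m : ℕ} {C : ℝ} (hC : 0 < C) {A : Matrix (Fin m) (Fin m) ℝ}
    (hA : A.IsHermitian) (hG : SGood C A) (j0 J : ℕ) :
    ((∑ j ∈ Finset.Ico j0 J, (j + 5) * (blk hA (√m) j).card : ℕ) : ℝ)
      ≤ C * (120 * (5 / 6) ^ j0) * m + C * √m * ((J : ℝ) * (J + 5)) := by
  push_cast
  have h1 : ∀ j ∈ Finset.Ico j0 J, ((j : ℝ) + 5) * ((blk hA (√m) j).card : ℝ)
      ≤ C * m * (((j : ℝ) + 5) * (2 / 3) ^ j) + C * √m * (J + 5) := by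
    intro j hj
    have h2 := card_blk_le hC hA hG j
    have h3 : (j : ℝ) ≤ J := by exact_mod_cast (Finset.mem_Ico.1 hj).2.le
    have h4 : (0 : ℝ) ≤ j := Nat.cast_nonneg j
    calc ((j : ℝ) + 5) * ((blk hA (√m) j).card : ℝ)
        ≤ ((j : ℝ) + 5) * (C * ((2 / 3) ^ j * m + √m)) :=
          mul_le_mul_of_nonneg_left h2 (by positivity)
      _ = C * m * (((j : ℝ) + 5) * (2 / 3) ^ j) + C * √m * (j + 5) := by ring
      _ ≤ _ := by
          have : C * √m * ((j : ℝ) + 5) ≤ C * √m * (J + 5) :=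
            mul_le_mul_of_nonneg_left (by linarith) (by positivity)
          linarith
  refine (Finset.sum_le_sum h1).trans ?_
  rw [Finset.sum_add_distrib, ← Finset.mul_sum, Finset.sum_const, Nat.card_Ico, nsmul_eq_mul]
  have h2 : C * m * ∑ j ∈ Finset.Ico j0 J, ((j : ℝ) + 5) * (2 / 3) ^ j
      ≤ C * m * (120 * (5 / 6) ^ j0) :=
    mul_le_mul_of_nonneg_left (sum_tail_le j0 J) (by positivity)
  have h3 : (((J - j0 : ℕ) : ℝ)) * (C * √m * ((J : ℝ) + 5)) ≤ (J : ℝ) * (C * √m * ((J : ℝ) + 5)) := by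
    refine mul_le_mul_of_nonneg_right ?_ (by positivity)
    exact_mod_cast Nat.sub_le J j0
  linarith

/-! ### The form of a graph -/

open Pool.Agent.Lib.S1

/-- the vector `D⁻¹ y`, real. -/
noncomputable def zv {m : ℕ} (G : SimpleGraph (Fin m)) (y : Fin m → ℤ) : Fin m → ℝ :=
  fun i => ((((G.adjMatrix ℚ)⁻¹ *ᵥ qv y) i : ℚ) : ℝ)

theorem mulVec_zv {m : ℕ} (G : SimpleGraph (Fin m)) (hdet : (G.adjMatrix ℚ).det ≠ 0)
    (y : Fin m → ℤ) : (G.adjMatrix ℝ) *ᵥ zv G y = fun i => (y i : ℝ) := by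
  have h1 : (G.adjMatrix ℚ) *ᵥ ((G.adjMatrix ℚ)⁻¹ *ᵥ qv y) = qv y := by
    rw [mulVec_mulVec, Matrix.mul_nonsing_inv _ (isUnit_iff_ne_zero.2 hdet), one_mulVec]
  funext i
  have h2 := congrFun h1 i
  have h3 : (((((G.adjMatrix ℚ) *ᵥ ((G.adjMatrix ℚ)⁻¹ *ᵥ qv y)) i : ℚ)) : ℝ) = (y i : ℝ) := by
    rw [h2]
    simp [qv]
  rw [← h3]
  simp only [mulVec, dotProduct, SimpleGraph.adjMatrix_apply, zv]
  push_cast
  refine Finset.sum_congr rfl (fun j _ => ?_)
  by_cases h : G.Adj i j <;> simp [h]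

theorem bf_cast {m : ℕ} (G : SimpleGraph (Fin m)) (x y : Fin m → ℤ) :
    ((bf G x y : ℚ) : ℝ) = (fun i => (x i : ℝ)) ⬝ᵥ zv G y := by
  simp only [bf, dotProduct, zv, qv]
  push_cast
  rfl

theorem inv_symm {m : ℕ} (G : SimpleGraph (Fin m)) :
    ((G.adjMatrix ℚ)⁻¹)ᵀ = (G.adjMatrix ℚ)⁻¹ := by
  rw [Matrix.transpose_nonsing_inv, SimpleGraph.transpose_adjMatrix]

theorem bf_symm {m : ℕ} (G : SimpleGraph (Fin m)) (x y : Fin m → ℤ) : bf G x y = bf G y x := by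
  unfold bf
  rw [dotProduct_mulVec, ← mulVec_transpose, inv_symm, dotProduct_comm]

/-- the form as a bilinear map. -/
noncomputable def bl {m : ℕ} (G : SimpleGraph (Fin m)) :
    (Fin m → ℤ) →ₗ[ℤ] (Fin m → ℤ) →ₗ[ℤ] ℚ :=
  LinearMap.mk₂ ℤ (bf G)
    (fun x x' y => by
      have : qv (x + x') = qv x + qv x' := by funext i; simp [qv]
      simp only [bf, this, add_dotProduct])
    (fun a x y => by
      have : qv (a • x) = (a : ℚ) • qv x := by funext i; simp [qv]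
      unfold bf
      rw [this, smul_dotProduct, smul_eq_mul, ← zsmul_eq_mul])
    (fun x y y' => by
      have : qv (y + y') = qv y + qv y' := by funext i; simp [qv]
      simp only [bf, this, mulVec_add, dotProduct_add])
    (fun a x y => by
      have : qv (a • y) = (a : ℚ) • qv y := by funext i; simp [qv]
      unfold bf
      rw [this, mulVec_smul, dotProduct_smul, smul_eq_mul, ← zsmul_eq_mul])

theorem bl_apply {m : ℕ} (G : SimpleGraph (Fin m)) (x y : Fin m → ℤ) : bl G x y = bf G x y := rfl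

/-- **End game, deterministic part.** -/
theorem endgame {ε : ℝ} (hε : 0 < ε) (k C0 j0 : ℕ) : ∃ m0 : ℕ, ∀ m : ℕ, m0 ≤ m →
    ∀ G : SimpleGraph (Fin m), (G.adjMatrix ℚ).det ≠ 0 →
      ∀ hA : (G.adjMatrix ℝ).IsHermitian,
      ((∑ j ∈ Finset.Ico j0 (scales C0 m), (j + 5) * (blk hA (√m) j).card : ℕ) : ℝ)
        ≤ ε / 2 * m →
      ∀ X : Finset (Fin m → ℤ), IsClique G C0 X → X.Nonempty →
      ∃ Z ⊆ X, (2 : ℝ) ^ (-(ε * m)) * X.card ≤ Z.card ∧
        ∀ y ∈ Z, ∀ z ∈ Z, ∃ n : ℤ, bf G y z = 2 ^ k * n := by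
  obtain ⟨m1, hm1⟩ := core (k + 1) (ε := ε / 2) (C := 2 ^ j0 + 5) (by positivity) (by positivity)
  refine ⟨max m1 1, fun m hm G hdet hA hcost X hX hne => ?_⟩
  have hm1' : m1 ≤ m := (le_max_left _ _).trans hm
  have hmpos : 0 < m := lt_of_lt_of_le one_pos ((le_max_right _ _).trans hm)
  have hmR : (0 : ℝ) < m := by exact_mod_cast hmpos
  have hS : 0 < √(m : ℝ) := Real.sqrt_pos.2 hmR
  have hS2 : √(m : ℝ) ^ 2 = m := Real.sq_sqrt hmR.le
  -- bounds
  have hdiff : ∀ y ∈ X, ∀ y' ∈ X, ∀ i, ((y i : ℝ) - (y' i : ℝ)) * ((y i : ℝ) - (y' i : ℝ)) ≤ 1 := by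
    intro y hy y' hy' i
    rcases hX.cube y hy i with h1 | h1 <;> rcases hX.cube y' hy' i with h2 | h2 <;>
      rw [h1, h2] <;> norm_num
  have hx : ∀ y ∈ X, ((G.adjMatrix ℝ).mulVec (zv G y)) ⬝ᵥ ((G.adjMatrix ℝ).mulVec (zv G y))
      ≤ √(m : ℝ) ^ 2 := by
    intro y hy
    rw [mulVec_zv G hdet, hS2]
    calc (fun i => (y i : ℝ)) ⬝ᵥ (fun i => (y i : ℝ)) = ∑ i, (y i : ℝ) * (y i : ℝ) := rfl
      _ ≤ ∑ _i : Fin m, (1 : ℝ) := by
          refine Finset.sum_le_sum (fun i _ => ?_)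
          rcases hX.cube y hy i with h1 | h1 <;> rw [h1] <;> norm_num
      _ = m := by simp
  have hxx : ∀ y ∈ X, ∀ y' ∈ X, ((G.adjMatrix ℝ).mulVec (zv G y - zv G y'))
      ⬝ᵥ ((G.adjMatrix ℝ).mulVec (zv G y - zv G y')) ≤ √(m : ℝ) ^ 2 := by
    intro y hy y' hy'
    rw [mulVec_sub, mulVec_zv G hdet, mulVec_zv G hdet, hS2]
    calc ((fun i => (y i : ℝ)) - (fun i => (y' i : ℝ))) ⬝ᵥ
          ((fun i => (y i : ℝ)) - (fun i => (y' i : ℝ)))
        = ∑ i, ((y i : ℝ) - (y' i : ℝ)) * ((y i : ℝ) - (y' i : ℝ)) := rfl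
      _ ≤ ∑ _i : Fin m, (1 : ℝ) := Finset.sum_le_sum (fun i _ => hdiff y hy y' hy' i)
      _ = m := by simp
  have hzb : ∀ y ∈ X, ∀ i, |zv G y i| ≤ (m : ℝ) ^ C0 := by
    intro y hy i
    have h1 := hX.bounded y hy i
    simp only [zv]
    exact_mod_cast h1
  have hz : ∀ y ∈ X, ∀ y' ∈ X, (zv G y - zv G y') ⬝ᵥ (zv G y - zv G y')
      ≤ 4 * (m : ℝ) ^ (2 * C0 + 1) := by
    intro y hy y' hy'
    calc (zv G y - zv G y') ⬝ᵥ (zv G y - zv G y')
        = ∑ i, (zv G y i - zv G y' i) * (zv G y i - zv G y' i) := rfl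
      _ ≤ ∑ _i : Fin m, (2 * (m : ℝ) ^ C0) * (2 * (m : ℝ) ^ C0) := by
          refine Finset.sum_le_sum (fun i _ => ?_)
          have h1 : |zv G y i - zv G y' i| ≤ 2 * (m : ℝ) ^ C0 := by
            have h2 := abs_sub (zv G y i) (zv G y' i)
            have h3 := hzb y hy i
            have h4 := hzb y' hy' i
            linarith
          rw [← abs_mul_abs_self (zv G y i - zv G y' i)]
          exact mul_le_mul h1 h1 (abs_nonneg _) (by positivity)
      _ = 4 * (m : ℝ) ^ (2 * C0 + 1) := by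
          rw [Finset.sum_const, Finset.card_univ, Fintype.card_fin, nsmul_eq_mul]
          ring
  obtain ⟨X', hsub, hne', hcard, hcell⟩ := cells hA X hne (zv G) hS j0 (scales C0 m) hx hxx hz
    (le_two_pow_scales C0 m)
  -- coordinates
  obtain ⟨r, c, B, hr, hBs, hcB⟩ := exists_coords (X : Set (Fin m → ℤ)) (bl G)
    (fun x y => by rw [bl_apply, bl_apply, bf_symm])
    (fun x hx y hy => by rw [bl_apply]; exact hX.integral x hx y hy)
  obtain ⟨o, ho⟩ := hne'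
  have hcBr : ∀ x ∈ X, ∀ y ∈ X, ((c x ⬝ᵥ B.mulVec (c y) : ℤ) : ℝ)
      = (fun i => (x i : ℝ)) ⬝ᵥ zv G y := by
    intro x hx y hy
    rw [← bf_cast, ← bl_apply, hcB x hx y hy]
    simp
  have hexp : ∀ a b c' d : Fin r → ℤ, (a - b) ⬝ᵥ B.mulVec (c' - d)
      = a ⬝ᵥ B.mulVec c' - a ⬝ᵥ B.mulVec d - (b ⬝ᵥ B.mulVec c' - b ⬝ᵥ B.mulVec d) := by
    intro a b c' d
    rw [mulVec_sub, sub_dotProduct, dotProduct_sub, dotProduct_sub]
  obtain ⟨Z, hZ1, hZ2, hZ3⟩ := hm1 m hm1' r hr (Fin m → ℤ) X' ⟨o, ho⟩ c B hBs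
    (EuclideanSpace ℝ (Fin m)) (fun y => wv hA (zv G y) - wv hA (zv G o)) (Jv hA) (norm_Jv_le hA)
    (fun y hy => hcell y hy o ho)
    (fun a ha b hb c' hc' d hd => by
      have e1 : wv hA (zv G a) - wv hA (zv G o) - (wv hA (zv G b) - wv hA (zv G o))
          = wv hA (zv G a - zv G b) := by
        rw [wv_sub]; abel
      have e2 : wv hA (zv G c') - wv hA (zv G o) - (wv hA (zv G d) - wv hA (zv G o))
          = wv hA (zv G c' - zv G d) := by
        rw [wv_sub]; abel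
      have e3 : (G.adjMatrix ℝ) *ᵥ (zv G a - zv G b)
          = (fun i => (a i : ℝ)) - (fun i => (b i : ℝ)) := by
        rw [mulVec_sub, mulVec_zv G hdet, mulVec_zv G hdet]
      rw [e1, e2, inner_wv, e3, hexp]
      push_cast [hcBr a (hsub ha) c' (hsub hc'), hcBr a (hsub ha) d (hsub hd),
        hcBr b (hsub hb) c' (hsub hc'), hcBr b (hsub hb) d (hsub hd)]
      rw [sub_dotProduct, dotProduct_sub, dotProduct_sub])
    (fun y hy => by
      have h1 := hcB y (hsub hy) y (hsub hy)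
      rw [bl_apply, hX.isotropic y (hsub hy)] at h1
      exact_mod_cast h1.symm)
  refine ⟨Z, hZ1.trans hsub, ?_, ?_⟩
  · have h1 : (X.card : ℝ) ≤ (2 : ℝ) ^ (ε / 2 * m) * X'.card := by
      refine hcard.trans (mul_le_mul_of_nonneg_right ?_ (Nat.cast_nonneg _))
      rw [← Real.rpow_natCast]
      exact Real.rpow_le_rpow_of_exponent_le (by norm_num) hcost
    calc (2 : ℝ) ^ (-(ε * m)) * X.card
        ≤ (2 : ℝ) ^ (-(ε * m)) * ((2 : ℝ) ^ (ε / 2 * m) * X'.card) :=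
          mul_le_mul_of_nonneg_left h1 (by positivity)
      _ = (2 : ℝ) ^ (-(ε / 2 * m)) * X'.card := by
          rw [← mul_assoc, ← Real.rpow_add (by norm_num)]
          congr 2
          ring
      _ ≤ Z.card := hZ2
  · intro y hy z hz
    have h1 := hZ3 y hy z hz
    rw [pow_succ, mul_comm ((2 : ℤ) ^ k) 2] at h1
    have h2 : (2 : ℤ) ^ k ∣ c y ⬝ᵥ B.mulVec (c z) :=
      (mul_dvd_mul_iff_left (by norm_num : (2 : ℤ) ≠ 0)).1 h1
    obtain ⟨n, hn⟩ := h2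
    refine ⟨n, ?_⟩
    rw [← bl_apply, hcB y (hsub (hZ1 hy)) z (hsub (hZ1 hz)), hn]
    push_cast
    rfl

/-- **End game of route P.** -/
theorem eg_rare (ε : ℝ) (hε : 0 < ε) (k C0 : ℕ) : ∃ m0 : ℕ, ∀ m, m0 ≤ m →
    (Nat.card {G : SimpleGraph (Fin m) // (G.adjMatrix ℚ).det ≠ 0 ∧
      ∃ X : Finset (Fin m → ℤ), IsClique G C0 X ∧ X.Nonempty ∧
        ∀ Z, Z ⊆ X → (∀ y ∈ Z, ∀ z ∈ Z, ∃ n : ℤ, bf G y z = 2 ^ k * n) →
          (Z.card : ℝ) < 2 ^ (-(ε * m)) * X.card} : ℝ) * 8 ^ m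
      ≤ Nat.card (SimpleGraph (Fin m)) := by
  obtain ⟨C, hC, m1, hm1⟩ := SpG.Main.strong 3
  -- choose `j0`
  obtain ⟨j0, hj0⟩ : ∃ j0 : ℕ, C * (120 * (5 / 6) ^ j0) ≤ ε / 4 := by
    obtain ⟨j0, hj0⟩ := exists_pow_lt_of_lt_one (show 0 < ε / 4 / (C * 120) by positivity)
      (show (5 / 6 : ℝ) < 1 by norm_num)
    refine ⟨j0, ?_⟩
    rw [lt_div_iff₀ (by positivity)] at hj0
    linarith
  obtain ⟨m2, hm2⟩ := endgame hε k C0 j0
  obtain ⟨m3, hm3⟩ := Filter.eventually_atTop.1 (eventually_small C C0 (δ := ε / 4) (by positivity))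
  refine ⟨max m1 (max m2 m3), fun m hm => ?_⟩
  have h1 : m1 ≤ m := (le_max_left _ _).trans hm
  have h2 : m2 ≤ m := ((le_max_left _ _).trans (le_max_right _ _)).trans hm
  have h3 : m3 ≤ m := ((le_max_right _ _).trans (le_max_right _ _)).trans hm
  have hs := hm1 m h1
  rw [Nat.card_eq_fintype_card, Fintype.card_subtype, Nat.card_eq_fintype_card]
  have hle : ((Finset.univ.filter fun G : SimpleGraph (Fin m) => (G.adjMatrix ℚ).det ≠ 0 ∧
      ∃ X : Finset (Fin m → ℤ), IsClique G C0 X ∧ X.Nonempty ∧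
        ∀ Z, Z ⊆ X → (∀ y ∈ Z, ∀ z ∈ Z, ∃ n : ℤ, bf G y z = 2 ^ k * n) →
          (Z.card : ℝ) < 2 ^ (-(ε * m)) * X.card).card : ℝ)
      ≤ Real.exp (-(3 * m)) * Fintype.card (SimpleGraph (Fin m)) := by
    refine le_trans ?_ hs
    rw [Nat.cast_le]
    refine Finset.card_le_card (fun G hG => ?_)
    rw [Finset.mem_filter] at hG ⊢
    obtain ⟨_, hdet, X, hX, hne, hbad⟩ := hG
    refine ⟨Finset.mem_univ _, ?_⟩
    by_contra hcon
    have hgood : SGood C (G.adjMatrix ℝ) := by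
      intro W s hs0 hW
      by_contra hlt
      push Not at hlt
      exact hcon ⟨W, s, hs0, hlt, hW⟩
    have hA : (G.adjMatrix ℝ).IsHermitian := by
      rw [Matrix.IsHermitian, conjTranspose_eq_transpose_of_trivial,
        SimpleGraph.transpose_adjMatrix]
    have hcost := cost_le hC hA hgood j0 (scales C0 m)
    have hsm := hm3 m h3
    have hmR : (0 : ℝ) ≤ m := Nat.cast_nonneg m
    have hcost' : ((∑ j ∈ Finset.Ico j0 (scales C0 m), (j + 5) * (blk hA (√m) j).card : ℕ) : ℝ)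
        ≤ ε / 2 * m := by
      refine hcost.trans ?_
      have h4 : C * (120 * (5 / 6) ^ j0) * m ≤ ε / 4 * m := mul_le_mul_of_nonneg_right hj0 hmR
      linarith
    obtain ⟨Z, hZ1, hZ2, hZ3⟩ := hm2 m h2 G hdet hA hcost' X hX hne
    have := hbad Z hZ1 hZ3
    linarith
  have h8 : Real.exp (-(3 * (m : ℝ))) * 8 ^ m ≤ 1 := by
    have h9 : (8 : ℝ) ^ m ≤ Real.exp (3 * m) := by
      have h10 : Real.exp (3 * (m : ℝ)) = Real.exp 3 ^ m := by
        rw [← Real.exp_nat_mul]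
        congr 1
        ring
      rw [h10]
      refine pow_le_pow_left₀ (by norm_num) ?_ m
      have h11 : Real.exp 3 = Real.exp 1 ^ 3 := by
        rw [← Real.exp_nat_mul]
        norm_num
      rw [h11]
      have h12 := Real.exp_one_gt_d9
      have h13 : (2 : ℝ) ^ 3 ≤ Real.exp 1 ^ 3 := pow_le_pow_left₀ (by norm_num) (by linarith) 3
      linarith
    rw [Real.exp_neg]
    rw [inv_mul_le_iff₀ (Real.exp_pos _), mul_one]
    exact h9
  calc _ ≤ (Real.exp (-(3 * m)) * Fintype.card (SimpleGraph (Fin m))) * 8 ^ m :=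
        mul_le_mul_of_nonneg_right hle (by positivity)
    _ = (Real.exp (-(3 * (m : ℝ))) * 8 ^ m) * Fintype.card (SimpleGraph (Fin m)) := by ring
    _ ≤ 1 * Fintype.card (SimpleGraph (Fin m)) :=
        mul_le_mul_of_nonneg_right h8 (Nat.cast_nonneg _)
    _ = _ := one_mul _

end Pool.Agent.Lib.EndG
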